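import Mathlib

open Polynomial

namespace Pool.Agent.Helper44.Hata

/-- the Gaussian integer `1 + i` -/
def u : GaussianInt := ⟨1, 1⟩

/-- the Gaussian integer `1 - i` -/
def u' : GaussianInt := ⟨1, -1⟩

lemma u_mul_u' : u * u' = 2 := by decide

lemma u_ne_zero : u ≠ 0 := by decide

/-- the base polynomial `(X - 1)(X - 2)(X - (1 + i))` -/
noncomputable def base : GaussianInt[X] := (X - 1) * (X - C 2) * (X - C u)

/-- `c n k`: coefficients of `base ^ (2 n)` -/
noncomputable def c (n k : ℕ) : GaussianInt := (base ^ (2 * n)).coeff k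

lemma natDegree_base : base.natDegree = 3 := by
  unfold base
  rw [show (1 : GaussianInt[X]) = C 1 by simp]
  rw [natDegree_mul, natDegree_mul, natDegree_X_sub_C, natDegree_X_sub_C, natDegree_X_sub_C]
  · exact X_sub_C_ne_zero _
  · exact X_sub_C_ne_zero _
  · exact mul_ne_zero (X_sub_C_ne_zero _) (X_sub_C_ne_zero _)
  · exact X_sub_C_ne_zero _

lemma natDegree_P (n : ℕ) : (base ^ (2 * n)).natDegree = 6 * n := by
  rw [natDegree_pow, natDegree_base]
  ring

lemma c_eq_zero {n k : ℕ} (h : 6 * n < k) : c n k = 0 := by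
  apply coeff_eq_zero_of_natDegree_lt
  rw [natDegree_P]
  exact h

/-- `(1 + i) ^ n` divides the middle coefficient -/
lemma u_pow_dvd (n : ℕ) : u ^ n ∣ c n (3 * n) := by
  have h1 : base.comp (C u * X) = C (u ^ 2) * ((C u * X - 1) * (X - C u') * (X - 1)) := by
    unfold base
    rw [← u_mul_u']
    simp only [mul_comp, sub_comp, X_comp, one_comp, C_comp, C_mul, C_pow]
    ring
  have h2 : (base ^ (2 * n)).comp (C u * X)
      = C (u ^ (4 * n)) * ((C u * X - 1) * (X - C u') * (X - 1)) ^ (2 * n) := by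
    rw [pow_comp, h1, mul_pow, ← C_pow, ← pow_mul]
    congr 3
    ring
  have h3 := congrArg (fun q => coeff q (3 * n)) h2
  simp only [comp_C_mul_X_coeff, coeff_C_mul] at h3
  refine ⟨(((C u * X - 1) * (X - C u') * (X - 1)) ^ (2 * n)).coeff (3 * n), ?_⟩
  have h4 : u ^ (3 * n) ≠ 0 := pow_ne_zero _ u_ne_zero
  apply mul_right_cancel₀ h4
  unfold c
  rw [h3]
  ring

/-- `2 ^ m` divides `c n (3 n - m)` -/
lemma two_pow_dvd {n m : ℕ} (hm : m ≤ 3 * n) : (2 : GaussianInt) ^ m ∣ c n (3 * n - m) := by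
  have h1 : base.comp (C 2 * X) = C (2 * u) * ((C 2 * X - 1) * (X - 1) * (C u' * X - 1)) := by
    unfold base
    simp only [mul_comp, sub_comp, X_comp, one_comp, C_comp, C_mul]
    have : (C (2:GaussianInt)) = C u * C u' := by rw [← C_mul, u_mul_u']
    rw [this]
    ring
  have h2 : (base ^ (2 * n)).comp (C 2 * X)
      = C ((2 * u) ^ (2 * n)) * ((C 2 * X - 1) * (X - 1) * (C u' * X - 1)) ^ (2 * n) := by
    rw [pow_comp, h1, mul_pow, ← C_pow]
  have h3 := congrArg (fun q => coeff q (3 * n - m)) h2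
  simp only [comp_C_mul_X_coeff, coeff_C_mul] at h3
  have h5 : (2 * u) ^ (2 * n) = 2 ^ (3 * n) * (⟨0, 1⟩ : GaussianInt) ^ n := by
    have h6 : u ^ 2 = 2 * (⟨0, 1⟩ : GaussianInt) := by decide
    rw [mul_pow, pow_mul u, h6, mul_pow, ← mul_assoc, ← pow_add]
    congr 2
    ring
  have h4 : (2 : GaussianInt) ^ (3 * n - m) ≠ 0 := pow_ne_zero _ (by decide)
  refine ⟨(⟨0, 1⟩ : GaussianInt) ^ n *
    (((C 2 * X - 1) * (X - 1) * (C u' * X - 1)) ^ (2 * n)).coeff (3 * n - m), ?_⟩
  apply mul_right_cancel₀ h4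
  unfold c
  rw [h3, h5]
  have h7 : (2 : GaussianInt) ^ (3 * n) = 2 ^ m * 2 ^ (3 * n - m) := by
    rw [← pow_add]
    congr 1
    omega
  rw [h7]
  ring

/-- The Lucas type divisibility. -/
lemma prime_dvd {n p k : ℕ} (hp : p.Prime) (h1 : p ≤ 2 * (n % p)) (h2 : 3 * (n % p) < 2 * p)
    (hk : k ≡ 3 * n [MOD p]) : (p : GaussianInt) ∣ c n k := by
  have : Fact p.Prime := ⟨hp⟩
  have hnu : (p : GaussianInt) ∈ nonunits GaussianInt := by
    rw [mem_nonunits_iff]
    intro hu
    have h3 : ((p : ℤ) : GaussianInt) ∣ ((1 : ℤ) : GaussianInt) := by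
      simpa using hu.dvd
    rw [Zsqrtd.intCast_dvd_intCast] at h3
    have h4 := Int.natCast_dvd_natCast.mp (by simpa using h3 : (p : ℤ) ∣ ((1:ℕ) : ℤ))
    exact hp.one_lt.ne' (Nat.dvd_one.mp h4)
  have := CharP.quotient GaussianInt p hnu
  set I : Ideal GaussianInt := Ideal.span {(p : GaussianInt)} with hI
  have hmem : (p : GaussianInt) ∣ c n k ↔ (Ideal.Quotient.mk I) (c n k) = 0 := by
    rw [Ideal.Quotient.eq_zero_iff_mem, hI, Ideal.mem_span_singleton]
  rw [hmem]
  unfold c
  rw [← coeff_map, Polynomial.map_pow]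
  set b := base.map (Ideal.Quotient.mk I) with hb
  set r := n % p with hr
  -- 2 n = p * (2 (n / p) + 1) + (2 r - p)
  have hn : 2 * n = (2 * r - p) + p * (2 * (n / p) + 1) := by
    have := Nat.div_add_mod n p
    have h5 : 2 * n = 2 * (p * (n / p) + n % p) := by rw [this]
    rw [h5, ← hr]
    have : p * (2 * (n / p) + 1) = 2 * (p * (n / p)) + p := by ring
    rw [this]
    omega
  rw [hn, pow_add, pow_mul' b p, ← Polynomial.map_frobenius_expand p (b ^ (2 * (n / p) + 1)),
    coeff_mul]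
  apply Finset.sum_eq_zero
  rintro ⟨i, j⟩ hij
  rw [Finset.HasAntidiagonal.mem_antidiagonal] at hij
  simp only at hij ⊢
  by_cases hi : (b ^ (2 * r - p)).natDegree < i
  · rw [coeff_eq_zero_of_natDegree_lt hi, zero_mul]
  · push Not at hi
    have hdb : b.natDegree ≤ 3 := (natDegree_map_le).trans natDegree_base.le
    have hdeg : (b ^ (2 * r - p)).natDegree ≤ (2 * r - p) * 3 :=
      natDegree_pow_le.trans (Nat.mul_le_mul_left _ hdb)
    have hi2 : i ≤ 6 * r - 3 * p := by omega
    have hpj : ¬ p ∣ j := by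
      intro hpj
      have h6 : i ≡ 3 * n [MOD p] := by
        have h7 : i + j ≡ i [MOD p] := by
          have := (Nat.modEq_zero_iff_dvd.mpr hpj).add_left i
          simpa using this
        rw [hij] at h7
        exact h7.symm.trans hk
      have h8 : 3 * n ≡ 3 * r - p [MOD p] := by
        have h9 : 3 * n = p * (3 * (n / p) + 1) + (3 * r - p) := by
          have := Nat.div_add_mod n p
          have h5 : 3 * n = 3 * (p * (n / p) + n % p) := by rw [this]
          rw [h5, ← hr]
          have : p * (3 * (n / p) + 1) = 3 * (p * (n / p)) + p := by ring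
          rw [this]
          omega
        rw [h9]
        have := (Nat.modEq_zero_iff_dvd.mpr (Dvd.intro (3 * (n / p) + 1) rfl)).add_right
          (c := 3 * r - p) (n := p) (a := p * (3 * (n / p) + 1))
        simpa using this
      have h10 := h6.trans h8
      have h11 : i < p := by omega
      have h12 : 3 * r - p < p := by omega
      have h13 : i = 3 * r - p := Nat.ModEq.eq_of_lt_of_lt h10 h11 h12
      omega
    rw [coeff_map, coeff_expand hp.pos, if_neg hpj, map_zero, mul_zero]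

end Pool.Agent.Helper44.Hata
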