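import Mathlib
import Pool.Agent.Helper44.Hata.Poly

open Polynomial

namespace Pool.Agent.Helper44.Hata

/-- The primes that can be removed from the common denominator. -/
def Sp (n : ℕ) : Finset ℕ :=
  (Finset.range (3 * n + 1)).filter
    (fun p => p.Prime ∧ 2 < p ∧ p ≤ 2 * (n % p) ∧ 3 * (n % p) < 2 * p)

/-- the reduced common denominator -/
def Dn (n : ℕ) : ℕ := Nat.lcmUpto (3 * n) / ∏ p ∈ Sp n, p

lemma prod_Sp_dvd (n : ℕ) : ∏ p ∈ Sp n, p ∣ Nat.lcmUpto (3 * n) := by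
  refine dvd_trans ?_ (Nat.primorial_dvd_lcmUpto (3 * n))
  unfold primorial Sp
  apply Finset.prod_dvd_prod_of_subset
  intro p hp
  rw [Finset.mem_filter] at hp ⊢
  exact ⟨hp.1, hp.2.1⟩

lemma prod_Sp_pos (n : ℕ) : 0 < ∏ p ∈ Sp n, p := by
  apply Finset.prod_pos
  intro p hp
  unfold Sp at hp
  rw [Finset.mem_filter] at hp
  exact hp.2.1.pos

lemma Dn_mul (n : ℕ) : Dn n * ∏ p ∈ Sp n, p = Nat.lcmUpto (3 * n) :=
  Nat.div_mul_cancel (prod_Sp_dvd n)

lemma Dn_pos (n : ℕ) : 0 < Dn n := by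
  have h := Dn_mul n
  have h2 := Nat.lcmUpto_pos (3 * n)
  rw [← h] at h2
  exact Nat.pos_of_mul_pos_right h2

lemma dvd_Dn_mul {n m : ℕ} (hm1 : 1 ≤ m) (hm : m ≤ 3 * n) :
    m ∣ Dn n * ∏ p ∈ (Sp n).filter (fun p => p ∣ m), p := by
  have h1 : (∏ p ∈ (Sp n).filter (fun p => p ∣ m), p) *
      (∏ p ∈ (Sp n).filter (fun p => ¬ p ∣ m), p) = ∏ p ∈ Sp n, p :=
    Finset.prod_filter_mul_prod_filter_not _ _ _
  have h2 : m ∣ Nat.lcmUpto (3 * n) := by
    unfold Nat.lcmUpto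
    exact Finset.dvd_lcm (f := id) (Finset.mem_Icc.mpr ⟨hm1, hm⟩)
  set Q := ∏ p ∈ (Sp n).filter (fun p => ¬ p ∣ m), p with hQ
  have hQpos : 0 < Q := by
    apply Finset.prod_pos
    intro p hp
    unfold Sp at hp
    rw [Finset.mem_filter, Finset.mem_filter] at hp
    exact hp.1.2.1.pos
  have hcop : Nat.Coprime m Q := by
    rw [hQ]
    apply Nat.Coprime.prod_right
    intro p hp
    unfold Sp at hp
    rw [Finset.mem_filter, Finset.mem_filter] at hp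
    exact ((Nat.Prime.coprime_iff_not_dvd hp.1.2.1).mpr hp.2).symm
  have h3 : Q ∣ Nat.lcmUpto (3 * n) := by
    refine dvd_trans ?_ (prod_Sp_dvd n)
    rw [← h1]
    exact Dvd.intro_left _ rfl
  have h4 : m * Q ∣ Nat.lcmUpto (3 * n) := hcop.mul_dvd_of_dvd_of_dvd h2 h3
  rw [← Dn_mul, ← h1, ← mul_assoc] at h4
  exact Nat.dvd_of_mul_dvd_mul_right hQpos h4

lemma dvd_Dn_mul_gauss {n m : ℕ} (hm1 : 1 ≤ m) (hm : m ≤ 3 * n) {z : GaussianInt}
    (hz : ∀ p ∈ Sp n, p ∣ m → (p : GaussianInt) ∣ z) :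
    (m : GaussianInt) ∣ (Dn n : GaussianInt) * z := by
  have h1 : ((∏ p ∈ (Sp n).filter (fun p => p ∣ m), p : ℕ) : GaussianInt) ∣ z := by
    rw [Nat.cast_prod]
    apply Finset.prod_dvd_of_coprime
    · intro a ha b hb hab
      unfold Sp at ha hb
      rw [Finset.mem_coe, Finset.mem_filter, Finset.mem_filter] at ha hb
      have hco : Nat.Coprime a b := (Nat.coprime_primes ha.1.2.1 hb.1.2.1).mpr hab
      have h2 : IsCoprime (a : ℤ) (b : ℤ) := Nat.isCoprime_iff_coprime.mpr hco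
      have h3 := h2.map (Int.castRingHom GaussianInt)
      simpa using h3
    · intro p hp
      rw [Finset.mem_filter] at hp
      exact hz p hp.1 hp.2
  obtain ⟨w, hw⟩ := h1
  obtain ⟨t, ht⟩ := dvd_Dn_mul hm1 hm
  refine ⟨(t : GaussianInt) * w, ?_⟩
  rw [hw, ← mul_assoc, ← Nat.cast_mul, ht]
  push_cast
  ring

lemma dvd_upper {n m : ℕ} (hm1 : 1 ≤ m) (hm : m ≤ 3 * n) :
    (m : GaussianInt) ∣ (Dn n : GaussianInt) * c n (3 * n + m) := by
  apply dvd_Dn_mul_gauss hm1 hm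
  intro p hp hpm
  unfold Sp at hp
  rw [Finset.mem_filter] at hp
  obtain ⟨_, hp1, _, hp3, hp4⟩ := hp
  apply prime_dvd hp1 hp3 hp4
  have := (Nat.modEq_zero_iff_dvd.mpr hpm).add_left (3 * n)
  simpa using this

lemma dvd_lower {n m : ℕ} (hm1 : 1 ≤ m) (hm : m ≤ 3 * n) {v : GaussianInt}
    (hv : c n (3 * n - m) = 2 ^ m * v) :
    (m : GaussianInt) ∣ (Dn n : GaussianInt) * v := by
  apply dvd_Dn_mul_gauss hm1 hm
  intro p hp hpm
  unfold Sp at hp
  rw [Finset.mem_filter] at hp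
  obtain ⟨_, hp1, hp2, hp3, hp4⟩ := hp
  have h1 : (p : GaussianInt) ∣ c n (3 * n - m) := by
    apply prime_dvd hp1 hp3 hp4
    have h2 := (Nat.modEq_zero_iff_dvd.mpr hpm).add_left (3 * n - m)
    rw [Nat.sub_add_cancel hm] at h2
    simpa using h2.symm
  rw [hv] at h1
  have hco : Nat.Coprime p 2 := (Nat.coprime_primes hp1 Nat.prime_two).mpr (by omega)
  have h2 : IsCoprime (p : ℤ) ((2 : ℕ) : ℤ) := Nat.isCoprime_iff_coprime.mpr hco
  have h3 : IsCoprime (p : GaussianInt) (2 : GaussianInt) := by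
    have h3 := h2.map (Int.castRingHom GaussianInt)
    simpa using h3
  exact (h3.pow_right (n := m)).dvd_of_dvd_mul_left h1

end Pool.Agent.Helper44.Hata
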