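import Mathlib
import Pool.Agent.Helper44.Hata.Dn

open Polynomial

namespace Pool.Agent.Helper44.Hata

/-- complex coefficients -/
noncomputable def cc (n k : ℕ) : ℂ := GaussianInt.toComplex (c n k)

/-- `A n`: the coefficient of `i π / 2` -/
noncomputable def A (n : ℕ) : ℂ := cc n (3 * n)

/-- the summand of the rational part -/
noncomputable def Rterm (n k : ℕ) : ℂ :=
  cc n k * ((2 * ((1 + Complex.I) ^ ((k : ℤ) - 3 * n) - 1) - (2 ^ ((k : ℤ) - 3 * n) - 1))
    / (((k : ℤ) - 3 * n : ℤ) : ℂ))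

/-- the rational part -/
noncomputable def R (n : ℕ) : ℂ :=
  ∑ k ∈ (Finset.range (6 * n + 1)).filter (fun k => k ≠ 3 * n), Rterm n k

lemma toComplex_u : GaussianInt.toComplex u = 1 + Complex.I := by
  simp [u, GaussianInt.toComplex_def]

lemma toComplex_u' : GaussianInt.toComplex u' = 1 - Complex.I := by
  simp [u', GaussianInt.toComplex_def]
  ring

lemma one_add_I_ne_zero : (1 + Complex.I : ℂ) ≠ 0 := by
  intro h
  have := congrArg Complex.re h
  simp at this

lemma term_mem {n k : ℕ} (hk : k ≤ 6 * n) (hk3 : k ≠ 3 * n) :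
    (Dn n : ℂ) * Rterm n k ∈ GaussianInt.toComplex.range := by
  rcases lt_or_gt_of_ne hk3 with h | h
  · -- k < 3 n
    obtain ⟨m, hm⟩ : ∃ m, m = 3 * n - k := ⟨_, rfl⟩
    have hm1 : 1 ≤ m := by omega
    have hm3 : m ≤ 3 * n := by omega
    have hk : k = 3 * n - m := by omega
    obtain ⟨v, hv⟩ := two_pow_dvd (n := n) hm3
    obtain ⟨w, hw⟩ := dvd_lower hm1 hm3 hv
    refine ⟨-(w * (2 * u' ^ m - 2 ^ m - 1)), ?_⟩
    have hz : ((k : ℤ) - 3 * n) = -(m : ℤ) := by omega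
    have hmc : (m : ℂ) ≠ 0 := by
      have : m ≠ 0 := by omega
      exact_mod_cast this
    have hwc := congrArg GaussianInt.toComplex hw
    rw [map_mul, map_mul, map_natCast, map_natCast] at hwc
    unfold Rterm cc
    rw [hz, hk, hv, map_neg, map_mul, map_sub, map_sub, map_mul, map_pow, map_pow, map_mul,
      map_pow, toComplex_u', map_one]
    simp only [map_ofNat, zpow_neg, zpow_natCast, Int.cast_neg, Int.cast_natCast]
    have h2 : (1 - Complex.I) ^ m = 2 ^ m * ((1 + Complex.I) ^ m)⁻¹ := by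
      have h3 : (1 - Complex.I) * (1 + Complex.I) = 2 := by
        ring_nf
        rw [Complex.I_sq]
        norm_num
      rw [← h3, mul_pow]
      field_simp [pow_ne_zero m one_add_I_ne_zero]
    rw [h2]
    have h4 : (2:ℂ) ^ m ≠ 0 := pow_ne_zero _ two_ne_zero
    rw [show (Dn n : ℂ) * (2 ^ m * GaussianInt.toComplex v *
        ((2 * (((1 + Complex.I) ^ m)⁻¹ - 1) - (((2:ℂ) ^ m)⁻¹ - 1)) / -(m:ℂ)))
        = ((Dn n : ℂ) * GaussianInt.toComplex v) *
        (2 ^ m * (2 * (((1 + Complex.I) ^ m)⁻¹ - 1) - (((2:ℂ) ^ m)⁻¹ - 1)) / -(m:ℂ)) by ring, hwc]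
    field_simp
    ring
  · obtain ⟨m, hm⟩ : ∃ m, m = k - 3 * n := ⟨_, rfl⟩
    have hm1 : 1 ≤ m := by omega
    have hm3 : m ≤ 3 * n := by omega
    have hk : k = 3 * n + m := by omega
    obtain ⟨w, hw⟩ := dvd_upper hm1 hm3
    refine ⟨w * (2 * (u ^ m - 1) - (2 ^ m - 1)), ?_⟩
    have hz : ((k : ℤ) - 3 * n) = (m : ℤ) := by omega
    have hmc : (m : ℂ) ≠ 0 := by
      have : m ≠ 0 := by omega
      exact_mod_cast this
    have hwc := congrArg GaussianInt.toComplex hw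
    rw [map_mul, map_mul, map_natCast, map_natCast] at hwc
    unfold Rterm cc
    rw [hz, hk, map_mul, map_sub, map_mul, map_sub, map_sub, map_pow, map_pow,
      toComplex_u, map_one]
    simp only [map_ofNat, zpow_natCast, Int.cast_natCast]
    rw [show (Dn n : ℂ) * (GaussianInt.toComplex (c n (3 * n + m)) *
        ((2 * ((1 + Complex.I) ^ m - 1) - ((2:ℂ) ^ m - 1)) / (m:ℂ)))
        = ((Dn n : ℂ) * GaussianInt.toComplex (c n (3 * n + m))) *
        ((2 * ((1 + Complex.I) ^ m - 1) - ((2:ℂ) ^ m - 1)) / (m:ℂ)) by ring, hwc]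
    field_simp

lemma exists_W (n : ℕ) : ∃ W : GaussianInt, GaussianInt.toComplex W = (Dn n : ℂ) * R n := by
  have h : (Dn n : ℂ) * R n ∈ GaussianInt.toComplex.range := by
    unfold R
    rw [Finset.mul_sum]
    apply Subring.sum_mem
    intro k hk
    rw [Finset.mem_filter, Finset.mem_range] at hk
    exact term_mem (by omega) hk.2
  exact h

lemma u_pow_dvd_two_pow (k : ℕ) : u ^ (2 * k) ∣ (2 : GaussianInt) ^ k := by
  have h1 : (2 : GaussianInt) = u ^ 2 * ⟨0, -1⟩ := by decide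
  rw [h1, mul_pow, ← pow_mul]
  exact Dvd.intro _ rfl

/-- The key arithmetic lower bound. -/
lemma lower_bound {n k q : ℕ} {P : ℤ} (hq : 2 ^ k ∣ q)
    (hne : (Dn n : ℂ) * (A n * Complex.I * P + 2 * q * R n) ≠ 0) :
    (2 : ℝ) ^ (min n (2 * k + 2)) ≤ ‖(Dn n : ℂ) * (A n * Complex.I * P + 2 * q * R n)‖ ^ 2 := by
  obtain ⟨W, hW⟩ := exists_W n
  obtain ⟨q', rfl⟩ := hq
  obtain ⟨a, ha⟩ := u_pow_dvd n
  set Z : GaussianInt := (Dn n : GaussianInt) * c n (3 * n) * ⟨0, 1⟩ * (P : GaussianInt)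
    + 2 ^ (k + 1) * (q' : GaussianInt) * W with hZ
  have hI : GaussianInt.toComplex ⟨0, 1⟩ = Complex.I := by simp [GaussianInt.toComplex_def]
  have hZc : GaussianInt.toComplex Z
      = (Dn n : ℂ) * (A n * Complex.I * P + 2 * ((2 ^ k * q' : ℕ) : ℂ) * R n) := by
    rw [hZ]
    simp only [map_add, map_mul, map_natCast, map_intCast, map_pow, map_ofNat, hW, hI]
    unfold A cc
    push_cast
    ring
  have hdvd : u ^ (min n (2 * k + 2)) ∣ Z := by
    rw [hZ]
    apply dvd_add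
    · have h1 : u ^ (min n (2 * k + 2)) ∣ c n (3 * n) :=
        (pow_dvd_pow u (min_le_left _ _)).trans (u_pow_dvd n)
      exact ((h1.mul_left _).mul_right _).mul_right _
    · have h1 : u ^ (min n (2 * k + 2)) ∣ (2 : GaussianInt) ^ (k + 1) :=
        (pow_dvd_pow u (min_le_right _ _)).trans (u_pow_dvd_two_pow (k + 1))
      exact (h1.mul_right _).mul_right _
  have hZ0 : Z ≠ 0 := by
    intro h0
    apply hne
    rw [← hZc, h0, map_zero]
  obtain ⟨Y, hY⟩ := hdvd
  have hY0 : Y ≠ 0 := by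
    rintro rfl
    exact hZ0 (by rw [hY, mul_zero])
  rw [← hZc, hY, map_mul, map_pow, toComplex_u, norm_mul, norm_pow, mul_pow, ← pow_mul,
    mul_comm (min n (2 * k + 2)) 2, pow_mul]
  have h2 : ‖(1 + Complex.I : ℂ)‖ ^ 2 = 2 := by
    rw [← Complex.normSq_eq_norm_sq]
    simp [Complex.normSq_apply]
    norm_num
  have h3 : 1 ≤ ‖GaussianInt.toComplex Y‖ ^ 2 := by
    rw [← Complex.normSq_eq_norm_sq, ← GaussianInt.intCast_real_norm]
    have h4 : 0 < Y.norm := GaussianInt.norm_pos.mpr hY0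
    exact_mod_cast h4
  rw [h2]
  calc (2:ℝ) ^ (min n (2 * k + 2)) = 2 ^ (min n (2 * k + 2)) * 1 := (mul_one _).symm
    _ ≤ _ := mul_le_mul_of_nonneg_left h3 (by positivity)

end Pool.Agent.Helper44.Hata
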