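import Mathlib
import Pool.Agent.Helper44.Hata.Form

open Polynomial MeasureTheory

namespace Pool.Agent.Helper44.Hata

/-- the base polynomial as a complex function -/
noncomputable def bC (t : ℂ) : ℂ := (t - 1) * (t - 2) * (t - (1 + Complex.I))

/-- the integrand base -/
noncomputable def Ff (t : ℂ) : ℂ := bC t ^ 2 / t ^ 3

lemma sum_cc (n : ℕ) (t : ℂ) :
    ∑ k ∈ Finset.range (6 * n + 1), cc n k * t ^ k = bC t ^ (2 * n) := by
  have h1 : eval₂ GaussianInt.toComplex t (base ^ (2 * n))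
      = ∑ k ∈ Finset.range (6 * n + 1), cc n k * t ^ k := by
    rw [eval₂_eq_sum_range' _ (n := 6 * n + 1) (by rw [natDegree_P]; omega)]
    rfl
  rw [← h1, eval₂_pow]
  congr 1
  unfold base bC
  have h2 : GaussianInt.toComplex 2 = 2 := map_ofNat _ 2
  simp only [eval₂_mul, eval₂_sub, eval₂_X, eval₂_C, eval₂_one, toComplex_u, h2]

lemma Ff_pow {n : ℕ} {t : ℂ} (ht : t ≠ 0) :
    Ff t ^ n = ∑ k ∈ Finset.range (6 * n + 1), cc n k * t ^ ((k : ℤ) - 3 * n) := by
  have h1 : ∀ k ∈ Finset.range (6 * n + 1), cc n k * t ^ ((k : ℤ) - 3 * n)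
      = (cc n k * t ^ k) / t ^ (3 * n) := by
    intro k _
    rw [zpow_sub₀ ht, zpow_natCast, mul_div_assoc]
    congr 2
  rw [Finset.sum_congr rfl h1, ← Finset.sum_div, sum_cc, Ff, div_pow, ← pow_mul, ← pow_mul]

/-- the circle of radius `√2` -/
noncomputable def gam (θ : ℝ) : ℂ := (Real.sqrt 2 : ℂ) * Complex.exp (θ * Complex.I)

/-- the real factor as a function of the coordinates -/
noncomputable def gg (x y : ℝ) : ℝ := (3 - 2 * x) ^ 2 * (2 - x - y)

/-- the real factor on the circle -/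
noncomputable def g (θ : ℝ) : ℝ := gg (Real.sqrt 2 * Real.cos θ) (Real.sqrt 2 * Real.sin θ)

lemma circle_eq (θ : ℝ) :
    (Real.sqrt 2 * Real.cos θ) ^ 2 + (Real.sqrt 2 * Real.sin θ) ^ 2 = 2 := by
  rw [mul_pow, mul_pow, Real.sq_sqrt (by norm_num), ← mul_add, Real.cos_sq_add_sin_sq, mul_one]

lemma gam_eq (θ : ℝ) : gam θ = ((Real.sqrt 2 * Real.cos θ : ℝ) : ℂ)
    + ((Real.sqrt 2 * Real.sin θ : ℝ) : ℂ) * Complex.I := by
  unfold gam
  rw [Complex.exp_mul_I]
  push_cast
  ring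

lemma gam_ne_zero (θ : ℝ) : gam θ ≠ 0 := by
  unfold gam
  apply mul_ne_zero _ (Complex.exp_ne_zero _)
  have : Real.sqrt 2 ≠ 0 := by positivity
  exact_mod_cast this

lemma bC_sq_aux (t s x y : ℂ) (hts : t * s = 2) (hx : 2 * x = t + s)
    (hy : 2 * y = -Complex.I * (t - s)) :
    ((t - 1) * (t - 2) * (t - (1 + Complex.I))) ^ 2
      = -(1 + Complex.I) * ((3 - 2 * x) ^ 2 * (2 - x - y)) * t ^ 3 := by
  have hI : Complex.I ^ 2 = -1 := Complex.I_sq
  have h1 : (t - 1) * (t - 2) = -t * (3 - 2 * x) := by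
    rw [hx]
    linear_combination (-1) * hts
  have h2 : (t - (1 + Complex.I)) ^ 2 = -t * (1 + Complex.I) * (2 - x - y) := by
    have hx' : x = (t + s) / 2 := by linear_combination hx / 2
    have hy' : y = -Complex.I * (t - s) / 2 := by linear_combination hy / 2
    rw [hx', hy']
    linear_combination (-(1 + Complex.I) ^ 2 / 2) * hts + (t ^ 2 / 2) * hI
  rw [mul_pow, h1, h2]
  ring

lemma bC_sq_eq {x y : ℝ} (h : x ^ 2 + y ^ 2 = 2) :
    bC (x + y * Complex.I) ^ 2
      = -(1 + Complex.I) * (gg x y : ℂ) * (x + y * Complex.I) ^ 3 := by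
  have hI : Complex.I ^ 2 = -1 := Complex.I_sq
  have hc : (x:ℂ) ^ 2 + (y:ℂ) ^ 2 = 2 := by exact_mod_cast h
  unfold bC gg
  push_cast
  apply bC_sq_aux _ ((x:ℂ) - y * Complex.I)
  · linear_combination (-(y:ℂ) ^ 2) * hI + hc
  · ring
  · linear_combination (2 * (y:ℂ)) * hI

lemma Ff_gam (θ : ℝ) : Ff (gam θ) = -(1 + Complex.I) * (g θ : ℂ) := by
  unfold Ff
  rw [div_eq_iff (pow_ne_zero 3 (gam_ne_zero θ)), gam_eq, bC_sq_eq (circle_eq θ)]
  rfl

lemma g_nonneg_aux {x y : ℝ} (h : x ^ 2 + y ^ 2 = 2) : 0 ≤ gg x y := by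
  unfold gg
  apply mul_nonneg (sq_nonneg _)
  nlinarith [sq_nonneg (x - 1), sq_nonneg (y - 1)]

lemma g_nonneg (θ : ℝ) : 0 ≤ g θ := g_nonneg_aux (circle_eq θ)

lemma g_continuous : Continuous g := by
  unfold g gg
  fun_prop

/-- orthogonality -/
lemma integral_gam_zpow (z : ℤ) :
    ∫ θ in (0:ℝ)..(2 * Real.pi), gam θ ^ z = if z = 0 then (2 * Real.pi : ℂ) else 0 := by
  have h1 : ∀ θ : ℝ, gam θ ^ z = (Real.sqrt 2 : ℂ) ^ z * Complex.exp ((z * Complex.I) * θ) := by
    intro θ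
    unfold gam
    rw [mul_zpow, ← Complex.exp_int_mul]
    congr 2
    ring
  simp only [h1]
  rw [intervalIntegral.integral_const_mul]
  split_ifs with hz
  · subst hz
    simp
  · have hzc : (z * Complex.I : ℂ) ≠ 0 := by
      apply mul_ne_zero _ Complex.I_ne_zero
      exact_mod_cast hz
    rw [integral_exp_mul_complex hzc]
    have h2 : Complex.exp (z * Complex.I * ((2 * Real.pi : ℝ) : ℂ)) = 1 := by
      rw [← Complex.exp_int_mul_two_pi_mul_I z]
      congr 1
      push_cast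
      ring
    rw [h2]
    simp

lemma A_eq_integral (n : ℕ) :
    A n = (2 * Real.pi : ℂ)⁻¹ * ∫ θ in (0:ℝ)..(2 * Real.pi), Ff (gam θ) ^ n := by
  have h1 : ∀ θ : ℝ, Ff (gam θ) ^ n
      = ∑ k ∈ Finset.range (6 * n + 1), cc n k * gam θ ^ ((k : ℤ) - 3 * n) :=
    fun θ => Ff_pow (gam_ne_zero θ)
  simp only [h1]
  rw [intervalIntegral.integral_finsetSum]
  · simp only [intervalIntegral.integral_const_mul, integral_gam_zpow]
    rw [Finset.sum_eq_single (3 * n)]
    · have hpi : (Real.pi : ℂ) ≠ 0 := by exact_mod_cast Real.pi_ne_zero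
      rw [if_pos (by push_cast; ring)]
      unfold A
      field_simp
    · intro k _ hk
      rw [if_neg, mul_zero]
      omega
    · intro hn
      exfalso
      apply hn
      rw [Finset.mem_range]
      omega
  · intro k _
    apply Continuous.intervalIntegrable
    apply Continuous.const_mul
    unfold gam
    apply Continuous.zpow₀
    · fun_prop
    · intro θ
      left
      exact gam_ne_zero θ

/-- normalised moment -/
noncomputable def a (n : ℕ) : ℝ := (2 * Real.pi)⁻¹ * ∫ θ in (0:ℝ)..(2 * Real.pi), g θ ^ n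

lemma A_eq (n : ℕ) : A n = (-(1 + Complex.I)) ^ n * (a n : ℂ) := by
  rw [A_eq_integral]
  unfold a
  simp only [Ff_gam, mul_pow]
  rw [intervalIntegral.integral_const_mul]
  have h1 : ∫ θ in (0:ℝ)..(2 * Real.pi), ((g θ : ℂ)) ^ n
      = ((∫ θ in (0:ℝ)..(2 * Real.pi), g θ ^ n : ℝ) : ℂ) := by
    rw [← intervalIntegral.integral_ofReal]
    push_cast
    rfl
  rw [h1]
  push_cast
  ring

lemma a_pos (n : ℕ) : 0 < a n := by
  unfold a
  apply mul_pos (by positivity)
  apply intervalIntegral.integral_pos (by positivity) (g_continuous.pow n).continuousOn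
  · intro θ _
    exact pow_nonneg (g_nonneg θ) n
  · refine ⟨Real.pi, ⟨by positivity, by linarith [Real.pi_pos]⟩, ?_⟩
    apply pow_pos
    unfold g gg
    rw [Real.cos_pi, Real.sin_pi]
    have h2 : 0 < Real.sqrt 2 := by positivity
    apply mul_pos
    · apply pow_pos
      linarith
    · linarith

lemma norm_one_add_I : ‖(1 + Complex.I : ℂ)‖ = Real.sqrt 2 := by
  rw [← Real.sqrt_sq (norm_nonneg (1 + Complex.I : ℂ)), ← Complex.normSq_eq_norm_sq]
  congr 1
  simp [Complex.normSq_apply]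
  norm_num

lemma norm_A (n : ℕ) : ‖A n‖ = Real.sqrt 2 ^ n * a n := by
  rw [A_eq, norm_mul, norm_pow, norm_neg, norm_one_add_I, Complex.norm_real,
    Real.norm_of_nonneg (a_pos n).le]

lemma a_zero : a 0 = 1 := by
  unfold a
  simp
  field_simp

lemma a_succ_le {K : ℝ} (hK : ∀ θ, g θ ≤ K) (n : ℕ) : a (n + 1) ≤ K * a n := by
  unfold a
  rw [mul_left_comm]
  apply mul_le_mul_of_nonneg_left _ (by positivity)
  rw [← intervalIntegral.integral_const_mul]
  apply intervalIntegral.integral_mono_on (by positivity)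
  · exact (g_continuous.pow _).intervalIntegrable _ _
  · exact (continuous_const.mul (g_continuous.pow _)).intervalIntegrable _ _
  · intro θ _
    rw [pow_succ, mul_comm]
    exact mul_le_mul_of_nonneg_right (hK θ) (pow_nonneg (g_nonneg θ) n)

end Pool.Agent.Helper44.Hata
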