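import Mathlib
import Pool.Agent.Helper44.Hata.Circle

namespace Pool.Agent.Helper44.Hata

lemma Q_global (s : ℝ) : 10 ≤ (103367507587/2441406250) + (-2031811937/48828125) * s + (50726342/390625) * s ^ 2 + (-216564/3125) * s ^ 3 + (1816/25) * s ^ 4 := by
  nlinarith [sq_nonneg (s ^ 2 - 0.477 * s + 0.3), sq_nonneg (s - 0.145), sq_nonneg (s ^ 2 - 0.477 * s)]

lemma ineq_global (s : ℝ) :
    2 * ((1 - s) * (5 * s ^ 2 - 4 * s + 1)) ^ 2 ≤ 122.64 * (1 + s ^ 2) ^ 3 := by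
  have h1 := mul_nonneg (sq_nonneg (s + 1.716)) (sub_nonneg.mpr (Q_global s))
  nlinarith [sq_nonneg (s + 1.716 + (-8474750600813/61035156250000))]

lemma Q_arc {s : ℝ} (h1 : 0.41 ≤ s) (h2 : s ≤ 1) :
    1 / 20 ≤ (-8240149809519773467867/2000000000000000000000) + (7446328881406368779/250000000000000000) * s + (-8450082728949169/100000000000000) * s ^ 2 + (553809411051/5000000000) * s ^ 3 + (-49976987/1000000) * s ^ 4 := by
  have h3 := mul_nonneg (sub_nonneg.mpr h1) (sub_nonneg.mpr h2)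
  nlinarith [mul_nonneg h3 (sq_nonneg (s - 0.7)), mul_nonneg h3 (sq_nonneg (s - 0.5)), mul_nonneg h3 (sq_nonneg (s - 0.9)), mul_nonneg (sub_nonneg.mpr h1) (sq_nonneg (s-0.5)), mul_nonneg (sub_nonneg.mpr h2) (sq_nonneg (s-0.5))]

lemma ineq_arc {s : ℝ} (h1 : 0.41 ≤ s) (h2 : s ≤ 1) :
    2 * ((1 - s) * (5 * s ^ 2 - 4 * s + 1)) ^ 2 ≤ 0.023013 * (1 + s ^ 2) ^ 3 := by
  have h3 := mul_nonneg (sq_nonneg (s - 0.6927)) (sub_nonneg.mpr (Q_arc h1 h2))
  nlinarith [sq_nonneg (s - 0.6927 + (3114229835094304255873/5000000000000000000000000))]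

lemma ineq_seg {t : ℝ} (h1 : 1 ≤ t) (h2 : t ≤ 2) :
    ((t - 1) * (t - 2)) ^ 2 * ((t - 1) ^ 2 + 1) ≤ 0.0325 * t ^ 3 := by
  have h3 : 0 ≤ (t - 1) * (2 - t) := mul_nonneg (by linarith) (by linarith)
  have h4 : (t - 1) * (2 - t) ≤ 0.172 * t := by nlinarith [sq_nonneg (t - 1.414)]
  have h5 : ((t - 1) * (t - 2)) ^ 2 ≤ (0.172 * t) ^ 2 := by
    rw [show ((t - 1) * (t - 2)) ^ 2 = ((t - 1) * (2 - t)) ^ 2 by ring]
    exact pow_le_pow_left₀ h3 h4 2
  have h6 : (t - 1) ^ 2 + 1 ≤ t := by nlinarith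
  calc ((t - 1) * (t - 2)) ^ 2 * ((t - 1) ^ 2 + 1) ≤ (0.172 * t) ^ 2 * t :=
        mul_le_mul h5 h6 (by positivity) (by positivity)
    _ = 0.029584 * t ^ 3 := by ring
    _ ≤ 0.0325 * t ^ 3 := by
        apply mul_le_mul_of_nonneg_right (by norm_num)
        positivity

/-- rational parametrisation of the circle -/
lemma param {x y : ℝ} (h : x ^ 2 + y ^ 2 = 2) (hx : x + 1 ≠ 0) :
    ∃ s : ℝ, s * (x + 1) = y + 1 ∧
      gg x y = 2 * ((1 - s) * (5 * s ^ 2 - 4 * s + 1)) ^ 2 / (1 + s ^ 2) ^ 3 := by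
  refine ⟨(y + 1) / (x + 1), by field_simp, ?_⟩
  obtain ⟨s, hs⟩ : ∃ s, s = (y + 1) / (x + 1) := ⟨_, rfl⟩
  rw [← hs]
  have hy : y = s * (x + 1) - 1 := by
    rw [hs]
    field_simp
    ring
  have hpos : 0 < 1 + s ^ 2 := by positivity
  have hx2 : x = (1 + 2 * s - s ^ 2) / (1 + s ^ 2) := by
    rw [hy] at h
    rw [eq_div_iff hpos.ne']
    apply mul_left_cancel₀ hx
    linear_combination h
  have hy2 : y = (s ^ 2 + 2 * s - 1) / (1 + s ^ 2) := by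
    rw [hy, hx2]
    field_simp
    ring
  rw [hx2, hy2]
  unfold gg
  field_simp
  ring

lemma gg_le {x y : ℝ} (h : x ^ 2 + y ^ 2 = 2) : gg x y ≤ 122.64 := by
  by_cases hx : x + 1 = 0
  · have hx1 : x = -1 := by linarith
    subst hx1
    have hy : y ^ 2 = 1 := by linarith
    unfold gg
    nlinarith [sq_nonneg (y + 1)]
  · obtain ⟨s, _, hs⟩ := param h hx
    rw [hs, div_le_iff₀ (by positivity)]
    exact ineq_global s

lemma gg_le_arc {x y : ℝ} (h : x ^ 2 + y ^ 2 = 2) (hx : 1 ≤ x) (hy : 0 ≤ y) :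
    gg x y ≤ 0.023013 := by
  obtain ⟨s, hs1, hs⟩ := param h (by linarith)
  rw [hs, div_le_iff₀ (by positivity)]
  have hx2 : x ≤ 1.4143 := by nlinarith
  have hy1 : y ≤ 1 := by nlinarith
  apply ineq_arc
  · by_contra hc
    push Not at hc
    have : s * (x + 1) < 0.41 * (x + 1) := mul_lt_mul_of_pos_right hc (by linarith)
    nlinarith
  · by_contra hc
    push Not at hc
    have : 1 * (x + 1) < s * (x + 1) := mul_lt_mul_of_pos_right hc (by linarith)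
    nlinarith

lemma g_le (θ : ℝ) : g θ ≤ 122.64 := gg_le (circle_eq θ)

lemma g_le_arc {θ : ℝ} (h0 : 0 ≤ θ) (h1 : θ ≤ Real.pi / 4) : g θ ≤ 0.023013 := by
  have hpi := Real.pi_pos
  apply gg_le_arc (circle_eq θ)
  · have h2 : Real.cos (Real.pi / 4) ≤ Real.cos θ :=
      Real.cos_le_cos_of_nonneg_of_le_pi h0 (by linarith) h1
    rw [Real.cos_pi_div_four] at h2
    have h3 : Real.sqrt 2 * (Real.sqrt 2 / 2) ≤ Real.sqrt 2 * Real.cos θ :=
      mul_le_mul_of_nonneg_left h2 (Real.sqrt_nonneg 2)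
    have h4 : Real.sqrt 2 * (Real.sqrt 2 / 2) = 1 := by
      rw [← mul_div_assoc, Real.mul_self_sqrt (by norm_num)]
      norm_num
    rwa [h4] at h3
  · apply mul_nonneg (Real.sqrt_nonneg 2)
    exact Real.sin_nonneg_of_nonneg_of_le_pi h0 (by linarith)

end Pool.Agent.Helper44.Hata
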