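import Mathlib
import Pool.Agent.Helper44.Hata.Ineq

open MeasureTheory

namespace Pool.Agent.Helper44.Hata

/-- antiderivative of `Ff ^ n / t` -/
noncomputable def H (n : ℕ) (t : ℂ) : ℂ :=
  A n * Complex.log t + ∑ k ∈ (Finset.range (6 * n + 1)).filter (fun k => k ≠ 3 * n),
    cc n k * (t ^ ((k : ℤ) - 3 * n) / (((k : ℤ) - 3 * n : ℤ) : ℂ))

lemma H_hasDerivAt (n : ℕ) {t : ℂ} (ht : t ∈ Complex.slitPlane) :
    HasDerivAt (H n) (Ff t ^ n / t) t := by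
  have ht0 : t ≠ 0 := Complex.slitPlane_ne_zero ht
  have h1 : HasDerivAt (fun t => A n * Complex.log t) (A n * t⁻¹) t :=
    (Complex.hasDerivAt_log ht).const_mul _
  have h2 : ∀ k ∈ (Finset.range (6 * n + 1)).filter (fun k => k ≠ 3 * n),
      HasDerivAt (fun t => cc n k * (t ^ ((k : ℤ) - 3 * n) / (((k : ℤ) - 3 * n : ℤ) : ℂ)))
        (cc n k * t ^ ((k : ℤ) - 3 * n - 1)) t := by
    intro k hk
    rw [Finset.mem_filter] at hk
    have hz : ((((k : ℤ) - 3 * n : ℤ)) : ℂ) ≠ 0 := by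
      have : (k : ℤ) - 3 * n ≠ 0 := by
        have := hk.2
        omega
      exact_mod_cast this
    have h3 := (hasDerivAt_zpow ((k : ℤ) - 3 * n) t (Or.inl ht0)).div_const
      ((((k : ℤ) - 3 * n : ℤ)) : ℂ)
    have h4 := h3.const_mul (cc n k)
    refine h4.congr_deriv ?_
    field_simp
  have h5 := h1.add (HasDerivAt.fun_sum h2)
  refine h5.congr_deriv ?_
  rw [Ff_pow ht0, Finset.sum_div]
  have hmem : 3 * n ∈ Finset.range (6 * n + 1) := by
    rw [Finset.mem_range]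
    omega
  rw [← Finset.add_sum_erase _ _ hmem, ← Finset.filter_ne']
  congr 1
  · unfold A
    rw [show ((3 * n : ℕ) : ℤ) - 3 * n = 0 by push_cast; ring, zpow_zero, mul_one, div_eq_mul_inv]
  · apply Finset.sum_congr rfl
    intro k _
    rw [zpow_sub_one₀ ht0, mul_div_assoc, div_eq_mul_inv]

/-- the linear form -/
noncomputable def Lam (n : ℕ) : ℂ := A n * (Real.pi / 2 * Complex.I) + R n

lemma log_one_add_I : Complex.log (1 + Complex.I) = Real.log 2 / 2 + Real.pi / 4 * Complex.I := by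
  have hpi := Real.pi_pos
  have h1 : (1 + Complex.I : ℂ) = Complex.exp (Real.log 2 / 2 + Real.pi / 4 * Complex.I) := by
    rw [Complex.exp_add]
    have h2 : Complex.exp (Real.log 2 / 2) = (Real.sqrt 2 : ℂ) := by
      have : Real.exp (Real.log 2 / 2) = Real.sqrt 2 := by
        rw [Real.sqrt_eq_rpow, Real.rpow_def_of_pos (by norm_num)]
        congr 1
        ring
      rw [← this]
      push_cast
      rfl
    have h3 : Complex.exp (Real.pi / 4 * Complex.I)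
        = ((Real.sqrt 2 / 2 : ℝ) : ℂ) + ((Real.sqrt 2 / 2 : ℝ) : ℂ) * Complex.I := by
      rw [Complex.exp_mul_I, show (Real.pi / 4 : ℂ) = ((Real.pi / 4 : ℝ) : ℂ) by push_cast; rfl,
        ← Complex.ofReal_cos, ← Complex.ofReal_sin, Real.cos_pi_div_four, Real.sin_pi_div_four]
    rw [h2, h3]
    have h4 : (Real.sqrt 2 : ℂ) * Real.sqrt 2 = 2 := by
      have : Real.sqrt 2 * Real.sqrt 2 = 2 := Real.mul_self_sqrt (by norm_num)
      exact_mod_cast this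
    push_cast
    linear_combination (-(1 + Complex.I) / 2) * h4
  have h5 : ((Real.log 2 : ℂ) / 2 + Real.pi / 4 * Complex.I).im = Real.pi / 4 := by
    rw [show ((Real.log 2 : ℂ) / 2 + Real.pi / 4 * Complex.I)
      = ((Real.log 2 / 2 : ℝ) : ℂ) + ((Real.pi / 4 : ℝ) : ℂ) * Complex.I by push_cast; ring]
    simp only [Complex.add_im, Complex.ofReal_im, Complex.mul_im, Complex.ofReal_re,
      Complex.I_im, mul_one, Complex.I_re, mul_zero, add_zero, zero_add]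
  rw [h1, Complex.log_exp]
  · rw [h5]
    linarith
  · rw [h5]
    linarith

lemma Lam_eq (n : ℕ) : Lam n = 2 * (H n (1 + Complex.I) - H n 1) - (H n 2 - H n 1) := by
  unfold Lam H R Rterm
  rw [log_one_add_I, Complex.log_one]
  have h2 : Complex.log 2 = Real.log 2 := by
    rw [← Complex.ofReal_ofNat, ← Complex.ofReal_log (by norm_num)]
  rw [h2]
  have h3 : ∀ s : Finset ℕ, ∑ k ∈ s, cc n k * ((2 * ((1 + Complex.I) ^ ((k : ℤ) - 3 * n) - 1)
      - (2 ^ ((k : ℤ) - 3 * n) - 1)) / (((k : ℤ) - 3 * n : ℤ) : ℂ))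
      = 2 * (∑ k ∈ s, cc n k * ((1 + Complex.I) ^ ((k : ℤ) - 3 * n) / (((k : ℤ) - 3 * n : ℤ) : ℂ))
        - ∑ k ∈ s, cc n k * (1 ^ ((k : ℤ) - 3 * n) / (((k : ℤ) - 3 * n : ℤ) : ℂ)))
        - (∑ k ∈ s, cc n k * (2 ^ ((k : ℤ) - 3 * n) / (((k : ℤ) - 3 * n : ℤ) : ℂ))
        - ∑ k ∈ s, cc n k * (1 ^ ((k : ℤ) - 3 * n) / (((k : ℤ) - 3 * n : ℤ) : ℂ))) := by
    intro s
    rw [← Finset.sum_sub_distrib, ← Finset.sum_sub_distrib, Finset.mul_sum,
      ← Finset.sum_sub_distrib]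
    apply Finset.sum_congr rfl
    intro k _
    rw [one_zpow]
    ring
  rw [h3]
  ring

lemma norm_Ff_real {t : ℝ} (h1 : 1 ≤ t) (h2 : t ≤ 2) : ‖Ff t‖ ≤ 0.0325 := by
  unfold Ff bC
  have ht : 0 < t := by linarith
  rw [norm_div, norm_pow, norm_pow, Complex.norm_real, Real.norm_of_nonneg ht.le,
    div_le_iff₀ (by positivity), norm_mul, mul_pow]
  have h3 : ‖((t:ℂ) - 1) * (t - 2)‖ ^ 2 = ((t - 1) * (t - 2)) ^ 2 := by
    rw [show ((t:ℂ) - 1) * (t - 2) = (((t - 1) * (t - 2) : ℝ) : ℂ) by push_cast; ring,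
      Complex.norm_real, Real.norm_eq_abs, sq_abs]
  have h4 : ‖((t:ℂ) - (1 + Complex.I))‖ ^ 2 = (t - 1) ^ 2 + 1 := by
    rw [← Complex.normSq_eq_norm_sq]
    simp [Complex.normSq_apply]
    ring
  rw [h3, h4]
  exact ineq_seg h1 h2

lemma H_seg (n : ℕ) {b : ℝ} (h1 : 1 ≤ b) (h2 : b ≤ 2) :
    ‖H n b - H n 1‖ ≤ 0.0325 ^ n * (b - 1) := by
  have h3 : ∀ t ∈ Set.Icc (1:ℝ) b, HasDerivWithinAt (fun t : ℝ => H n t) (Ff t ^ n / t)
      (Set.Icc (1:ℝ) b) t := by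
    intro t ht
    have hsl : (t : ℂ) ∈ Complex.slitPlane := by
      rw [Complex.ofReal_mem_slitPlane]
      linarith [ht.1]
    exact (H_hasDerivAt n hsl).comp_ofReal.hasDerivWithinAt
  have h4 : ∀ t ∈ Set.Ico (1:ℝ) b, ‖Ff t ^ n / (t:ℂ)‖ ≤ 0.0325 ^ n := by
    intro t ht
    rw [norm_div, norm_pow, Complex.norm_real, Real.norm_of_nonneg (by linarith [ht.1])]
    rw [div_le_iff₀ (by linarith [ht.1])]
    have h5 := norm_Ff_real ht.1 (by linarith [ht.2])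
    calc ‖Ff t‖ ^ n ≤ 0.0325 ^ n := pow_le_pow_left₀ (norm_nonneg _) h5 n
      _ = 0.0325 ^ n * 1 := (mul_one _).symm
      _ ≤ 0.0325 ^ n * t := mul_le_mul_of_nonneg_left ht.1 (by positivity)
  have h5 := norm_image_sub_le_of_norm_deriv_le_segment' h3 h4 b ⟨h1, le_refl b⟩
  simpa using h5

lemma gam_mem {θ : ℝ} (h0 : 0 ≤ θ) (h1 : θ ≤ Real.pi / 4) : gam θ ∈ Complex.slitPlane := by
  left
  rw [gam_eq]
  simp only [Complex.add_re, Complex.ofReal_re, Complex.mul_re, Complex.I_re, mul_zero,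
    Complex.ofReal_im, Complex.I_im, mul_one, sub_self, add_zero]
  have hpi := Real.pi_pos
  apply mul_pos (by positivity)
  apply Real.cos_pos_of_mem_Ioo
  constructor <;> linarith

lemma gam_hasDerivAt (θ : ℝ) : HasDerivAt gam (gam θ * Complex.I) θ := by
  unfold gam
  have h1 : HasDerivAt (fun θ : ℝ => (θ : ℂ) * Complex.I) Complex.I θ := by
    simpa using (Complex.ofRealCLM.hasDerivAt (x := θ)).mul_const Complex.I
  have h2 := (h1.cexp).const_mul (Real.sqrt 2 : ℂ)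
  refine h2.congr_deriv ?_
  ring

lemma norm_Ff_gam {θ : ℝ} (h0 : 0 ≤ θ) (h1 : θ ≤ Real.pi / 4) : ‖Ff (gam θ)‖ ≤ 0.032546 := by
  rw [Ff_gam, norm_mul, norm_neg, norm_one_add_I, Complex.norm_real,
    Real.norm_of_nonneg (g_nonneg θ)]
  have h2 := g_le_arc h0 h1
  have h3 : Real.sqrt 2 ≤ 1.41422 := by
    rw [Real.sqrt_le_left (by norm_num)]
    norm_num
  calc Real.sqrt 2 * g θ ≤ 1.41422 * 0.023013 :=
        mul_le_mul h3 h2 (g_nonneg θ) (by norm_num)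
    _ ≤ 0.032546 := by norm_num

lemma H_arc (n : ℕ) : ‖H n (1 + Complex.I) - H n (Real.sqrt 2)‖ ≤ 0.032546 ^ n * (Real.pi / 4) := by
  have hpi := Real.pi_pos
  have h3 : ∀ θ ∈ Set.Icc (0:ℝ) (Real.pi / 4), HasDerivWithinAt (fun θ : ℝ => H n (gam θ))
      (Ff (gam θ) ^ n * Complex.I) (Set.Icc (0:ℝ) (Real.pi / 4)) θ := by
    intro θ hθ
    have h4 := (H_hasDerivAt n (gam_mem hθ.1 hθ.2)).comp θ (gam_hasDerivAt θ)
    refine (h4.congr_deriv ?_).hasDerivWithinAt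
    have := gam_ne_zero θ
    field_simp
  have h4 : ∀ θ ∈ Set.Ico (0:ℝ) (Real.pi / 4), ‖Ff (gam θ) ^ n * Complex.I‖ ≤ 0.032546 ^ n := by
    intro θ hθ
    rw [norm_mul, Complex.norm_I, mul_one, norm_pow]
    exact pow_le_pow_left₀ (norm_nonneg _) (norm_Ff_gam hθ.1 hθ.2.le) n
  have h5 := norm_image_sub_le_of_norm_deriv_le_segment' h3 h4 (Real.pi / 4)
    ⟨by linarith, le_refl _⟩
  have h6 : gam (Real.pi / 4) = 1 + Complex.I := by
    rw [gam_eq, Real.cos_pi_div_four, Real.sin_pi_div_four]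
    have h7 : Real.sqrt 2 * (Real.sqrt 2 / 2) = 1 := by
      rw [← mul_div_assoc, Real.mul_self_sqrt (by norm_num)]
      norm_num
    rw [h7]
    simp
  have h8 : gam 0 = (Real.sqrt 2 : ℂ) := by simp [gam]
  simp only [h6, h8, sub_zero] at h5
  exact h5

lemma norm_Lam_le (n : ℕ) : ‖Lam n‖ ≤ 4 * 0.032546 ^ n := by
  have hs1 : (1:ℝ) ≤ Real.sqrt 2 := by
    rw [Real.one_le_sqrt]
    norm_num
  have hs2 : Real.sqrt 2 ≤ 1.42 := by
    rw [Real.sqrt_le_left (by norm_num)]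
    norm_num
  have h1 := H_seg n hs1 (by linarith)
  have h2 := H_arc n
  have h3 := H_seg n (b := 2) (by norm_num) le_rfl
  have hr : (0.0325:ℝ) ^ n ≤ 0.032546 ^ n := pow_le_pow_left₀ (by norm_num) (by norm_num) n
  have hr0 : (0:ℝ) ≤ 0.0325 ^ n := by positivity
  have hpi : Real.pi ≤ 3.15 := Real.pi_lt_d2.le
  rw [Lam_eq]
  have h4 : 2 * (H n (1 + Complex.I) - H n 1) - (H n 2 - H n 1)
      = 2 * (H n (1 + Complex.I) - H n (Real.sqrt 2)) + 2 * (H n (Real.sqrt 2) - H n 1)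
        - (H n 2 - H n 1) := by ring
  rw [h4]
  have h3' : ‖H n 2 - H n 1‖ ≤ 0.0325 ^ n * (2 - 1) := by simpa using h3
  calc ‖2 * (H n (1 + Complex.I) - H n (Real.sqrt 2)) + 2 * (H n (Real.sqrt 2) - H n 1)
        - (H n 2 - H n 1)‖
      ≤ ‖2 * (H n (1 + Complex.I) - H n (Real.sqrt 2)) + 2 * (H n (Real.sqrt 2) - H n 1)‖
        + ‖H n 2 - H n 1‖ := norm_sub_le _ _
    _ ≤ ‖2 * (H n (1 + Complex.I) - H n (Real.sqrt 2))‖ + ‖2 * (H n (Real.sqrt 2) - H n 1)‖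
        + ‖H n 2 - H n 1‖ := by gcongr; exact norm_add_le _ _
    _ = 2 * ‖H n (1 + Complex.I) - H n (Real.sqrt 2)‖ + 2 * ‖H n (Real.sqrt 2) - H n 1‖
        + ‖H n 2 - H n 1‖ := by simp
    _ ≤ 2 * (0.032546 ^ n * (Real.pi / 4)) + 2 * (0.0325 ^ n * (Real.sqrt 2 - 1))
        + 0.0325 ^ n * (2 - 1) := by gcongr
    _ ≤ 4 * 0.032546 ^ n := by nlinarith

end Pool.Agent.Helper44.Hata
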