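import Mathlib
import Pool.Agent.Helper44.PNT.PNT
import Pool.Agent.Helper44.Hata.Dn

open Filter Topology

namespace Pool.Agent.Helper44.Hata

open Chebyshev

lemma theta_scaled {c : ℝ} (hc : 0 < c) :
    Tendsto (fun n : ℕ => theta (c * n) / n) atTop (𝓝 c) := by
  have h1 : Tendsto (fun n : ℕ => c * (n : ℝ)) atTop atTop :=
    Tendsto.const_mul_atTop hc tendsto_natCast_atTop_atTop
  have h2 := (PNT.theta_div_tendsto.comp h1).const_mul c
  rw [mul_one] at h2
  refine h2.congr' ?_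
  filter_upwards [eventually_gt_atTop 0] with n hn
  have hn' : (n : ℝ) ≠ 0 := by
    have : n ≠ 0 := by omega
    exact_mod_cast this
  simp only [Function.comp]
  field_simp

lemma psi_scaled {c : ℝ} (hc : 0 < c) :
    Tendsto (fun n : ℕ => psi (c * n) / n) atTop (𝓝 c) := by
  have h1 : Tendsto (fun n : ℕ => c * (n : ℝ)) atTop atTop :=
    Tendsto.const_mul_atTop hc tendsto_natCast_atTop_atTop
  have h2 := (PNT.psi_div_tendsto.comp h1).const_mul c
  rw [mul_one] at h2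
  refine h2.congr' ?_
  filter_upwards [eventually_gt_atTop 0] with n hn
  have hn' : (n : ℝ) ≠ 0 := by
    have : n ≠ 0 := by omega
    exact_mod_cast this
  simp only [Function.comp]
  field_simp

/-- primes in the `j`-th window -/
def Tj (n j : ℕ) : Finset ℕ :=
  (Finset.Ioc (3 * n / (3 * j + 2)) (2 * n / (2 * j + 1))).filter Nat.Prime

lemma mem_Tj {n j p : ℕ} : p ∈ Tj n j ↔
    (3 * n < p * (3 * j + 2) ∧ p * (2 * j + 1) ≤ 2 * n) ∧ p.Prime := by
  unfold Tj
  rw [Finset.mem_filter, Finset.mem_Ioc, Nat.div_lt_iff_lt_mul (by omega),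
    Nat.le_div_iff_mul_le (by omega)]

lemma div_eq_of_mem_Tj {n j p : ℕ} (h : p ∈ Tj n j) : n / p = j := by
  rw [mem_Tj] at h
  obtain ⟨⟨h1, h2⟩, h3⟩ := h
  have hp := h3.pos
  apply Nat.div_eq_of_lt_le
  · nlinarith
  · nlinarith

lemma Tj_subset {n j : ℕ} (hn : 2 * (3 * j + 2) ≤ 3 * n) : Tj n j ⊆ Sp n := by
  intro p hp
  have hdiv := div_eq_of_mem_Tj hp
  rw [mem_Tj] at hp
  obtain ⟨⟨h1, h2⟩, h3⟩ := hp
  have hmod : p * j + n % p = n := by
    rw [← hdiv]
    exact Nat.div_add_mod n p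
  unfold Sp
  rw [Finset.mem_filter, Finset.mem_range]
  have e1 : p * (3 * j + 2) = 3 * (p * j) + 2 * p := by ring
  have e2 : p * (2 * j + 1) = 2 * (p * j) + p := by ring
  rw [e1] at h1
  rw [e2] at h2
  refine ⟨by omega, h3, ?_, by omega, by omega⟩
  by_contra hc
  have : p * (3 * j + 2) ≤ 2 * (3 * j + 2) := Nat.mul_le_mul_right _ (by omega)
  rw [e1] at this
  omega

lemma sum_Tj {n j : ℕ} :
    theta (2 / (2 * j + 1) * n) - theta (3 / (3 * j + 2) * n)
      = ∑ p ∈ Tj n j, Real.log p := by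
  have h1 : ⌊(2 / (2 * j + 1) * n : ℝ)⌋₊ = 2 * n / (2 * j + 1) := by
    rw [← Nat.floor_div_eq_div (K := ℝ)]
    congr 1
    push_cast
    ring
  have h2 : ⌊(3 / (3 * j + 2) * n : ℝ)⌋₊ = 3 * n / (3 * j + 2) := by
    rw [← Nat.floor_div_eq_div (K := ℝ)]
    congr 1
    push_cast
    ring
  have hle : 3 * n / (3 * j + 2) ≤ 2 * n / (2 * j + 1) := by
    rw [Nat.le_div_iff_mul_le (by omega)]
    have := Nat.div_mul_le_self (3 * n) (3 * j + 2)
    nlinarith
  unfold theta Tj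
  rw [h1, h2]
  have h3 : (Finset.Ioc 0 (2 * n / (2 * j + 1))).filter Nat.Prime
      = (Finset.Ioc 0 (3 * n / (3 * j + 2))).filter Nat.Prime ∪
        (Finset.Ioc (3 * n / (3 * j + 2)) (2 * n / (2 * j + 1))).filter Nat.Prime := by
    rw [← Finset.filter_union, Finset.Ioc_union_Ioc_eq_Ioc (Nat.zero_le _) hle]
  rw [h3, Finset.sum_union]
  · ring
  · rw [Finset.disjoint_left]
    intro p hp1 hp2
    rw [Finset.mem_filter, Finset.mem_Ioc] at hp1 hp2
    omega

lemma log_Dn (n : ℕ) :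
    Real.log (Dn n) = psi (3 * n) - ∑ p ∈ Sp n, Real.log p := by
  have h1 := Dn_mul n
  have h2 : Real.log (Dn n * ∏ p ∈ Sp n, (p : ℝ)) = psi (3 * n) := by
    have h3 := Chebyshev.psi_eq_log_lcmUpto (3 * n)
    rw [← h1] at h3
    push_cast at h3
    exact h3.symm
  have hpos : (Dn n : ℝ) ≠ 0 := by
    have := (Dn_pos n).ne'
    exact_mod_cast this
  have hprod : (∏ p ∈ Sp n, (p : ℝ)) ≠ 0 := by
    rw [← Nat.cast_prod, Nat.cast_ne_zero]
    exact (prod_Sp_pos n).ne'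
  rw [Real.log_mul hpos hprod, Real.log_prod] at h2
  · linarith
  · intro p hp
    unfold Sp at hp
    rw [Finset.mem_filter] at hp
    have := hp.2.1.ne_zero
    exact_mod_cast this

lemma sum_windows_le {n J : ℕ} (hn : 2 * (3 * J + 2) ≤ 3 * n) :
    ∑ j ∈ Finset.range J, (theta (2 / (2 * j + 1) * n) - theta (3 / (3 * j + 2) * n))
      ≤ ∑ p ∈ Sp n, Real.log p := by
  have h1 : ∑ j ∈ Finset.range J, (theta (2 / (2 * j + 1) * n) - theta (3 / (3 * j + 2) * n))
      = ∑ p ∈ (Finset.range J).biUnion (Tj n), Real.log p := by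
    rw [Finset.sum_biUnion]
    · exact Finset.sum_congr rfl fun j _ => sum_Tj
    · intro i _ j _ hij
      rw [Function.onFun, Finset.disjoint_left]
      intro p hp1 hp2
      exact hij ((div_eq_of_mem_Tj hp1).symm.trans (div_eq_of_mem_Tj hp2))
  rw [h1]
  apply Finset.sum_le_sum_of_subset_of_nonneg
  · rw [Finset.biUnion_subset]
    intro j hj
    rw [Finset.mem_range] at hj
    exact Tj_subset (by omega)
  · intro p _ _
    exact Real.log_natCast_nonneg p

lemma tendsto_windows (J : ℕ) :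
    Tendsto (fun n : ℕ => (psi (3 * n) - ∑ j ∈ Finset.range J,
      (theta (2 / (2 * j + 1) * n) - theta (3 / (3 * j + 2) * n))) / n) atTop
      (𝓝 (3 - ∑ j ∈ Finset.range J, (2 / (2 * (j : ℝ) + 1) - 3 / (3 * (j : ℝ) + 2)))) := by
  have h1 := psi_scaled (c := 3) (by norm_num)
  have h2 : Tendsto (fun n : ℕ => ∑ j ∈ Finset.range J,
      (theta (2 / (2 * (j : ℝ) + 1) * n) / n - theta (3 / (3 * (j : ℝ) + 2) * n) / n)) atTop
      (𝓝 (∑ j ∈ Finset.range J, (2 / (2 * (j : ℝ) + 1) - 3 / (3 * (j : ℝ) + 2)))) := by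
    apply tendsto_finsetSum
    intro j _
    exact (theta_scaled (by positivity)).sub (theta_scaled (by positivity))
  refine (h1.sub h2).congr fun n => ?_
  rw [sub_div, Finset.sum_div]
  congr 1
  apply Finset.sum_congr rfl
  intro j _
  rw [sub_div]

lemma nat_sum : 64490000 ≤ ∑ j ∈ Finset.range 500, 100000000 / ((2 * j + 1) * (3 * j + 2)) := by
  decide +kernel

lemma sJ_ge : (0.6449 : ℝ) ≤
    ∑ j ∈ Finset.range 500, (2 / (2 * (j : ℝ) + 1) - 3 / (3 * (j : ℝ) + 2)) := by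
  have h1 : ∀ j ∈ Finset.range 500,
      ((100000000 / ((2 * j + 1) * (3 * j + 2)) : ℕ) : ℝ) / 100000000
        ≤ 2 / (2 * (j : ℝ) + 1) - 3 / (3 * (j : ℝ) + 2) := by
    intro j _
    have h2 : ((100000000 / ((2 * j + 1) * (3 * j + 2)) : ℕ) : ℝ)
        ≤ (100000000 : ℕ) / (((2 * j + 1) * (3 * j + 2) : ℕ) : ℝ) := Nat.cast_div_le
    rw [div_le_iff₀ (by norm_num)]
    refine h2.trans (le_of_eq ?_)
    push_cast
    field_simp
    ring
  have h3 := Finset.sum_le_sum h1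
  refine le_trans ?_ h3
  rw [← Finset.sum_div, le_div_iff₀ (by norm_num)]
  have h4 : ((64490000 : ℕ) : ℝ)
      ≤ ((∑ j ∈ Finset.range 500, 100000000 / ((2 * j + 1) * (3 * j + 2)) : ℕ) : ℝ) := by
    exact_mod_cast nat_sum
  rw [Nat.cast_sum] at h4
  refine le_trans ?_ h4
  norm_num

/-- `log D_n ≤ 2.3552 n` eventually -/
theorem log_Dn_le : ∀ᶠ n : ℕ in atTop, Real.log (Dn n) ≤ 2.3552 * n := by
  have h1 := tendsto_windows 500
  have h2 : 3 - ∑ j ∈ Finset.range 500, (2 / (2 * (j : ℝ) + 1) - 3 / (3 * (j : ℝ) + 2))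
      < 2.3552 := by
    have h3 := sJ_ge
    have h4 : (3:ℝ) - 0.6449 < 2.3552 := by norm_num
    linarith
  filter_upwards [h1.eventually (gt_mem_nhds h2), eventually_ge_atTop 2000] with n hn hn2
  have h3 := sum_windows_le (n := n) (J := 500) (by omega)
  rw [log_Dn]
  have hnpos : (0:ℝ) < n := by
    have : 0 < n := by omega
    exact_mod_cast this
  rw [div_lt_iff₀ hnpos] at hn
  linarith

end Pool.Agent.Helper44.Hata
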