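import Mathlib
import Pool.Agent.Helper44.Hata.Anal
import Pool.Agent.Helper44.Hata.DnAsym

open Filter Topology

namespace Pool.Agent.Helper44.Hata

lemma exp_beta : (0.032546 : ℝ) ≤ Real.exp (-3.425) := by
  have h1 : Real.exp 3.425 ≤ 30.725 := by
    have h2 : Real.exp 3.425 ^ 40 ≤ 30.725 ^ 40 := by
      have h3 : Real.exp 3.425 ^ 40 = Real.exp 1 ^ 137 := by
        rw [← Real.exp_nat_mul, ← Real.exp_nat_mul]
        norm_num
      rw [h3]
      have h4 : Real.exp 1 ^ 137 ≤ 2.7182818286 ^ 137 :=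
        pow_le_pow_left₀ (Real.exp_pos 1).le Real.exp_one_lt_d9.le 137
      refine h4.trans ?_
      norm_num
    exact le_of_pow_le_pow_left₀ (by norm_num) (by norm_num) h2
  rw [Real.exp_neg, ← one_div, le_div_iff₀ (Real.exp_pos _)]
  calc (0.032546:ℝ) * Real.exp 3.425 ≤ 0.032546 * 30.725 := by gcongr
    _ ≤ 1 := by norm_num

lemma exp_alpha : Real.sqrt 2 * 122.64 ≤ Real.exp 5.156 := by
  have h0 : (0:ℝ) ≤ Real.exp 5.156 := (Real.exp_pos _).le
  have h6 : (1.36615:ℝ) ≤ Real.exp 0.312 := by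
    have h7 : (1.36615:ℝ) ^ 125 ≤ Real.exp 0.312 ^ 125 := by
      have h3 : Real.exp 0.312 ^ 125 = Real.exp 1 ^ 39 := by
        rw [← Real.exp_nat_mul, ← Real.exp_nat_mul]
        norm_num
      rw [h3]
      have h4 : (2.7182818283:ℝ) ^ 39 ≤ Real.exp 1 ^ 39 :=
        pow_le_pow_left₀ (by norm_num) Real.exp_one_gt_d9.le 39
      refine le_trans ?_ h4
      norm_num
    exact le_of_pow_le_pow_left₀ (by norm_num) (Real.exp_pos _).le h7
  have h8 : (22026.46:ℝ) ≤ Real.exp 1 ^ 10 := by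
    have h4 : (2.7182818283:ℝ) ^ 10 ≤ Real.exp 1 ^ 10 :=
      pow_le_pow_left₀ (by norm_num) Real.exp_one_gt_d9.le 10
    refine le_trans ?_ h4
    norm_num
  have h1 : (Real.sqrt 2 * 122.64) ^ 2 ≤ Real.exp 5.156 ^ 2 := by
    have h3 : Real.exp 5.156 ^ 2 = Real.exp 1 ^ 10 * Real.exp 0.312 := by
      rw [← Real.exp_nat_mul, ← Real.exp_nat_mul, ← Real.exp_add]
      norm_num
    rw [h3, mul_pow, Real.sq_sqrt (by norm_num)]
    calc (2:ℝ) * 122.64 ^ 2 ≤ 22026.46 * 1.36615 := by norm_num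
      _ ≤ Real.exp 1 ^ 10 * Real.exp 0.312 := by gcongr
  exact le_of_pow_le_pow_left₀ (by norm_num) h0 h1

lemma norm_Lam_le' (n : ℕ) : ‖Lam n‖ ≤ 4 * Real.exp (-3.425 * n) := by
  refine (norm_Lam_le n).trans ?_
  have h1 : (0.032546:ℝ) ^ n ≤ Real.exp (-3.425) ^ n := pow_le_pow_left₀ (by norm_num) exp_beta n
  rw [← Real.exp_nat_mul, mul_comm (n:ℝ)] at h1
  exact mul_le_mul_of_nonneg_left h1 (by norm_num)

lemma norm_A_succ (n : ℕ) : ‖A (n + 1)‖ ≤ Real.exp 5.156 * ‖A n‖ := by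
  rw [norm_A, norm_A, pow_succ]
  have h1 := a_succ_le g_le n
  have h2 : 0 ≤ Real.sqrt 2 ^ n := by positivity
  have h3 : 0 ≤ Real.sqrt 2 := by positivity
  calc Real.sqrt 2 ^ n * Real.sqrt 2 * a (n + 1)
      ≤ Real.sqrt 2 ^ n * Real.sqrt 2 * (122.64 * a n) := by gcongr
    _ = (Real.sqrt 2 * 122.64) * (Real.sqrt 2 ^ n * a n) := by ring
    _ ≤ Real.exp 5.156 * (Real.sqrt 2 ^ n * a n) :=
        mul_le_mul_of_nonneg_right exp_alpha (mul_nonneg h2 (a_pos n).le)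

lemma norm_A_le (n : ℕ) : ‖A n‖ ≤ Real.exp (5.156 * n) := by
  induction n with
  | zero =>
    rw [norm_A, a_zero]
    simp
  | succ n ih =>
    refine (norm_A_succ n).trans ?_
    calc Real.exp 5.156 * ‖A n‖ ≤ Real.exp 5.156 * Real.exp (5.156 * n) := by gcongr
      _ = Real.exp (5.156 * ((n + 1 : ℕ) : ℝ)) := by
        rw [← Real.exp_add]
        congr 1
        push_cast
        ring

lemma one_le_norm_A (n : ℕ) : 1 ≤ ‖A n‖ := by
  have h0 : A n ≠ 0 := by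
    intro h
    have h1 := norm_A n
    rw [h, norm_zero] at h1
    have h2 : 0 < Real.sqrt 2 ^ n * a n := mul_pos (by positivity) (a_pos n)
    linarith
  have h1 : c n (3 * n) ≠ 0 := by
    intro h
    apply h0
    unfold A cc
    rw [h, map_zero]
  have h2 : 1 ≤ ‖A n‖ ^ 2 := by
    unfold A cc
    rw [← Complex.normSq_eq_norm_sq, ← GaussianInt.intCast_real_norm]
    have h4 : 0 < (c n (3 * n)).norm := GaussianInt.norm_pos.mpr h1
    exact_mod_cast h4
  have h3 : (1:ℝ) ^ 2 ≤ ‖A n‖ ^ 2 := by simpa using h2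
  exact le_of_pow_le_pow_left₀ (by norm_num) (norm_nonneg _) h3

lemma exp_le_two_pow (n : ℕ) : Real.exp (0.69314 * n) ≤ 2 ^ n := by
  have h1 : (2:ℝ) ^ n = Real.exp (Real.log 2 * n) := by
    rw [mul_comm, Real.exp_nat_mul, Real.exp_log (by norm_num)]
  rw [h1]
  apply Real.exp_le_exp.mpr
  have := Real.log_two_gt_d9
  have h2 : (0.69314:ℝ) ≤ Real.log 2 := by linarith
  exact mul_le_mul_of_nonneg_right h2 (Nat.cast_nonneg n)

lemma Dn_le_exp : ∃ N : ℕ, ∀ n, N ≤ n → (Dn n : ℝ) ≤ Real.exp (2.3552 * n) := by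
  obtain ⟨N, hN⟩ := Filter.eventually_atTop.mp log_Dn_le
  refine ⟨N, fun n hn => ?_⟩
  have h1 := hN n hn
  have hpos : (0:ℝ) < Dn n := by exact_mod_cast Dn_pos n
  rwa [← Real.log_le_iff_le_exp hpos]

end Pool.Agent.Helper44.Hata
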