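import Mathlib
import Pool.Agent.Helper44.Hata.Consts

open Filter Topology

namespace Pool.Agent.Helper44.Hata

/-- the integral linear form evaluated at `(q, P)` -/
noncomputable def Del (q : ℕ) (P : ℤ) (n : ℕ) : ℂ :=
  (Dn n : ℂ) * (A n * Complex.I * P + 2 * q * R n)

lemma Del_aux (q : ℕ) (P : ℤ) (n : ℕ) :
    A n * Complex.I * P + 2 * q * R n
      = 2 * q * Lam n - A n * Complex.I * ((q * Real.pi - P : ℝ) : ℂ) := by
  unfold Lam
  push_cast
  ring

lemma Del_norm_le (q : ℕ) (P : ℤ) (n : ℕ) :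
    ‖Del q P n‖ ≤ Dn n * (2 * q * ‖Lam n‖ + ‖A n‖ * |q * Real.pi - P|) := by
  unfold Del
  rw [Del_aux, norm_mul, Complex.norm_natCast]
  apply mul_le_mul_of_nonneg_left _ (Nat.cast_nonneg _)
  refine (norm_sub_le _ _).trans (le_of_eq ?_)
  rw [norm_mul, norm_mul, norm_mul, norm_mul, Complex.norm_I, Complex.norm_real,
    Complex.norm_natCast, Real.norm_eq_abs]
  simp

lemma Del_zero {q : ℕ} {P : ℤ} {n : ℕ} (h : Del q P n = 0) :
    ‖A n‖ * |q * Real.pi - P| = 2 * q * ‖Lam n‖ := by
  unfold Del at h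
  have h1 : (Dn n : ℂ) ≠ 0 := by
    have := (Dn_pos n).ne'
    exact_mod_cast this
  have h2 := (mul_eq_zero.mp h).resolve_left h1
  rw [Del_aux, sub_eq_zero] at h2
  have h3 := congrArg norm h2
  rw [norm_mul, norm_mul, norm_mul, norm_mul, Complex.norm_I, Complex.norm_real,
    Complex.norm_natCast, Real.norm_eq_abs] at h3
  simp at h3
  rw [← h3]

lemma exists_Del_ne {q : ℕ} (hq : 0 < q) (P : ℤ) (n0 : ℕ) :
    ∃ n, n0 ≤ n ∧ Del q P n ≠ 0 := by
  by_contra hcon
  push Not at hcon
  have hd : 0 < |q * Real.pi - P| := by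
    apply abs_pos.mpr
    intro h0
    have hirr := irrational_pi
    apply hirr
    refine ⟨(P : ℚ) / q, ?_⟩
    have hq' : (q : ℝ) ≠ 0 := by
      have := hq.ne'
      exact_mod_cast this
    push_cast
    field_simp
    linarith
  set d := |q * Real.pi - P| with hdd
  have hqr : (0:ℝ) < q := by exact_mod_cast hq
  obtain ⟨m, hm⟩ := exists_nat_gt (8 * q / d)
  have h1 := Del_zero (hcon (max n0 m) (le_max_left _ _))
  set n := max n0 m with hn
  have hmn : (m:ℝ) ≤ n := by exact_mod_cast le_max_right n0 m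
  have h2 := norm_Lam_le' n
  have h3 := one_le_norm_A n
  have h4 : d ≤ 8 * q * Real.exp (-3.425 * n) := by
    calc d = 1 * d := (one_mul _).symm
      _ ≤ ‖A n‖ * d := mul_le_mul_of_nonneg_right h3 hd.le
      _ = 2 * q * ‖Lam n‖ := h1
      _ ≤ 2 * q * (4 * Real.exp (-3.425 * n)) := by gcongr
      _ = _ := by ring
  have h5 : (n:ℝ) ≤ Real.exp (3.425 * n) := by
    have := Real.add_one_le_exp (3.425 * (n:ℝ))
    have hn0 : (0:ℝ) ≤ n := Nat.cast_nonneg n
    linarith
  have h6 : d * n ≤ 8 * q := by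
    calc d * n ≤ (8 * q * Real.exp (-3.425 * n)) * Real.exp (3.425 * n) := by gcongr
      _ = 8 * q * (Real.exp (-3.425 * n) * Real.exp (3.425 * n)) := by ring
      _ = 8 * q := by
        rw [← Real.exp_add]
        simp
  rw [div_lt_iff₀ hd] at hm
  have h7 : (m:ℝ) * d ≤ n * d := mul_le_mul_of_nonneg_right hmn hd.le
  linarith

lemma exp_const1 : 8 * (1 + Real.exp 8.581) ≤ Real.exp 11 := by
  have h1 : Real.exp 11 = Real.exp 8.581 * (Real.exp 1 ^ 2 * Real.exp 0.419) := by
    rw [← Real.exp_nat_mul, ← Real.exp_add, ← Real.exp_add]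
    norm_num
  have h2 : (7.38:ℝ) ≤ Real.exp 1 ^ 2 := by
    have h4 : (2.7182818283:ℝ) ^ 2 ≤ Real.exp 1 ^ 2 :=
      pow_le_pow_left₀ (by norm_num) Real.exp_one_gt_d9.le 2
    refine le_trans ?_ h4
    norm_num
  have h3 : (1.419:ℝ) ≤ Real.exp 0.419 := by
    have := Real.add_one_le_exp (0.419:ℝ)
    linarith
  have h4 : (9.581:ℝ) ≤ Real.exp 8.581 := by
    have := Real.add_one_le_exp (8.581:ℝ)
    linarith
  have h5 : (10:ℝ) ≤ Real.exp 1 ^ 2 * Real.exp 0.419 := by
    calc (10:ℝ) ≤ 7.38 * 1.419 := by norm_num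
      _ ≤ _ := by gcongr
  rw [h1]
  calc 8 * (1 + Real.exp 8.581) ≤ Real.exp 8.581 * 10 := by linarith
    _ ≤ _ := by gcongr

lemma exp_const2 : (16:ℝ) ≤ Real.exp 2.8 := by
  have h1 : (16:ℝ) = Real.exp (4 * Real.log 2) := by
    rw [show (4:ℝ) = ((4:ℕ):ℝ) by norm_num, Real.exp_nat_mul, Real.exp_log (by norm_num)]
    norm_num
  rw [h1]
  apply Real.exp_le_exp.mpr
  have := Real.log_two_lt_d9
  linarith

theorem main_bound : ∃ X0 : ℝ, ∀ (q k : ℕ) (P : ℤ), 0 < q → X0 ≤ Real.log q → 2 ^ k ∣ q →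
    (q : ℝ) ≤ 16 ^ k → Real.exp (-6.059 * Real.log q) < |Real.pi - P / q| := by
  obtain ⟨N0, hN0⟩ := Dn_le_exp
  refine ⟨max 120000 (2 * N0), ?_⟩
  intro q k P hq hX hdvd hqk
  have hqr : (0:ℝ) < q := by exact_mod_cast hq
  set X := Real.log q with hXdef
  have hqX : (q:ℝ) = Real.exp X := (Real.exp_log hqr).symm
  have hX1 : 120000 ≤ X := (le_max_left _ _).trans hX
  have hX2 : 2 * (N0:ℝ) ≤ X := (le_max_right _ _).trans hX
  -- k is large
  have hXk : X ≤ 2.7726 * k := by
    have h1 : X ≤ Real.log (16 ^ k) := Real.log_le_log hqr hqk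
    rw [Real.log_pow] at h1
    have h2 : Real.log 16 ≤ 2.7726 := by
      rw [show (16:ℝ) = 2 ^ 4 by norm_num, Real.log_pow]
      have := Real.log_two_lt_d9
      push_cast
      linarith
    have hk0 : (0:ℝ) ≤ k := Nat.cast_nonneg k
    nlinarith
  -- the starting index
  set n0 := ⌈(X + 2.8) / 1.41637⌉₊ with hn0
  have hn0_ge : X + 2.8 ≤ 1.41637 * n0 := by
    have := Nat.le_ceil ((X + 2.8) / 1.41637)
    rw [← hn0, div_le_iff₀ (by norm_num)] at this
    linarith
  have hn0_lt : 1.41637 * (n0:ℝ) ≤ X + 5 := by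
    have := Nat.ceil_lt_add_one (a := (X + 2.8) / 1.41637) (by positivity)
    rw [← hn0] at this
    have h1 : 1.41637 * (n0:ℝ) < 1.41637 * ((X + 2.8) / 1.41637 + 1) := by
      apply mul_lt_mul_of_pos_left this (by norm_num)
    have h2 : 1.41637 * ((X + 2.8) / 1.41637 + 1) = X + 2.8 + 1.41637 := by
      field_simp
    linarith
  have hN0n0 : N0 ≤ n0 := by
    have h1 : (N0:ℝ) ≤ n0 := by linarith
    exact_mod_cast h1
  -- minimal index
  have hex := exists_Del_ne hq P n0
  classical
  set n := Nat.find hex with hn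
  obtain ⟨hnn0, hne⟩ := Nat.find_spec hex
  rw [← hn] at hnn0 hne
  have hmin : ∀ m, m < n → n0 ≤ m → Del q P m = 0 := by
    intro m hm hm0
    have := Nat.find_min hex hm
    push Not at this
    exact this hm0
  have hnn0r : (n0:ℝ) ≤ n := by exact_mod_cast hnn0
  have hDn := hN0 n (hN0n0.trans hnn0)
  set d := |q * Real.pi - P| with hd
  have hd0 : 0 ≤ d := abs_nonneg _
  have hlow := lower_bound hdvd hne
  have hup := Del_norm_le q P n
  rw [← hd] at hup
  change (2:ℝ) ^ (min n (2 * k + 2)) ≤ ‖Del q P n‖ ^ 2 at hlow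
  have hlow' : Real.exp (0.69314 * (min n (2 * k + 2) : ℕ)) ≤ ‖Del q P n‖ ^ 2 :=
    (exp_le_two_pow _).trans hlow
  -- Claim 1
  have claim1 : n ≤ 2 * k + 2 ∧ 1.41637 * (n:ℝ) ≤ X + 11 := by
    rcases Nat.eq_or_lt_of_le hnn0 with h | h
    · rw [← h]
      constructor
      · have h1 : (n0:ℝ) ≤ 2 * k + 2 := by
          have : 1.41637 * (n0:ℝ) ≤ 1.41637 * (2 * k + 2) := by linarith
          linarith
        exact_mod_cast h1
      · linarith
    · obtain ⟨m, hm⟩ : ∃ m, n = m + 1 := ⟨n - 1, by omega⟩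
      have hm0 : Del q P m = 0 := hmin m (by omega) (by omega)
      have hz := Del_zero hm0
      rw [← hd] at hz
      have hA : ‖A n‖ * d ≤ Real.exp 5.156 * (2 * q * ‖Lam m‖) := by
        rw [← hz, ← mul_assoc, hm]
        exact mul_le_mul_of_nonneg_right (norm_A_succ m) hd0
      have hL1 := norm_Lam_le' n
      have hL2 := norm_Lam_le' m
      have hup2 : ‖Del q P n‖ ≤ Real.exp (X + 11 - 1.0698 * n) := by
        calc ‖Del q P n‖ ≤ Dn n * (2 * q * ‖Lam n‖ + ‖A n‖ * d) := hup
          _ ≤ Real.exp (2.3552 * n) * (2 * q * (4 * Real.exp (-3.425 * n))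
              + Real.exp 5.156 * (2 * q * (4 * Real.exp (-3.425 * m)))) := by
            have : ‖A n‖ * d ≤ Real.exp 5.156 * (2 * q * (4 * Real.exp (-3.425 * m))) := by
              refine hA.trans ?_
              gcongr
            gcongr
          _ = (8 * (1 + Real.exp 8.581)) * Real.exp (X - 1.0698 * n) := by
            rw [hqX]
            have e1 : Real.exp (-3.425 * m) = Real.exp 3.425 * Real.exp (-3.425 * n) := by
              rw [← Real.exp_add, hm]
              congr 1
              push_cast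
              ring
            have e2 : Real.exp 8.581 = Real.exp 5.156 * Real.exp 3.425 := by
              rw [← Real.exp_add]
              norm_num
            have e3 : Real.exp (X - 1.0698 * n)
                = Real.exp (2.3552 * n) * Real.exp X * Real.exp (-3.425 * n) := by
              rw [← Real.exp_add, ← Real.exp_add]
              congr 1
              ring
            rw [e1, e2, e3]
            ring
          _ ≤ Real.exp 11 * Real.exp (X - 1.0698 * n) :=
            mul_le_mul_of_nonneg_right exp_const1 (Real.exp_pos _).le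
          _ = Real.exp (X + 11 - 1.0698 * n) := by
            rw [← Real.exp_add]
            congr 1
            ring
      have h3 : Real.exp (0.69314 * (min n (2 * k + 2) : ℕ))
          ≤ Real.exp (2 * (X + 11 - 1.0698 * n)) := by
        refine hlow'.trans ?_
        have h4 : ‖Del q P n‖ ^ 2 ≤ Real.exp (X + 11 - 1.0698 * n) ^ 2 :=
          pow_le_pow_left₀ (norm_nonneg _) hup2 2
        refine h4.trans (le_of_eq ?_)
        rw [← Real.exp_nat_mul]
        norm_num
      have h4 := Real.exp_le_exp.mp h3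
      rcases le_or_gt (2 * k + 2) n with h5 | h5
      · exfalso
        rw [min_eq_right h5] at h4
        push_cast at h4
        have h6 : (2 * k + 2 : ℝ) ≤ n := by exact_mod_cast h5
        linarith
      · rw [min_eq_left h5.le] at h4
        exact ⟨h5.le, by linarith⟩
  obtain ⟨hn2k, hnX⟩ := claim1
  rw [min_eq_left hn2k] at hlow'
  -- Claim 2
  have claim2 : (Dn n : ℝ) * (2 * q * ‖Lam n‖) ≤ 1 / 2 * Real.exp (0.34657 * n) := by
    have hL1 := norm_Lam_le' n
    calc (Dn n : ℝ) * (2 * q * ‖Lam n‖)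
        ≤ Real.exp (2.3552 * n) * (2 * q * (4 * Real.exp (-3.425 * n))) := by gcongr
      _ = 1 / 2 * (16 * Real.exp (X - 1.0698 * n)) := by
        rw [hqX]
        have e3 : Real.exp (X - 1.0698 * n)
            = Real.exp (2.3552 * n) * Real.exp X * Real.exp (-3.425 * n) := by
          rw [← Real.exp_add, ← Real.exp_add]
          congr 1
          ring
        rw [e3]
        ring
      _ ≤ 1 / 2 * (Real.exp 2.8 * Real.exp (X - 1.0698 * n)) := by
        gcongr
        exact exp_const2
      _ = 1 / 2 * Real.exp (X + 2.8 - 1.0698 * n) := by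
        rw [← Real.exp_add]
        congr 2
        ring
      _ ≤ 1 / 2 * Real.exp (0.34657 * n) := by
        gcongr
        linarith
  -- Claim 3
  have claim3 : Real.exp (0.34657 * n) ≤ ‖Del q P n‖ := by
    have h1 : Real.exp (0.34657 * n) ^ 2 ≤ ‖Del q P n‖ ^ 2 := by
      refine le_trans (le_of_eq ?_) hlow'
      rw [← Real.exp_nat_mul]
      congr 1
      push_cast
      ring
    exact le_of_pow_le_pow_left₀ (by norm_num) (norm_nonneg _) h1
  have claim4 : 1 / 2 * Real.exp (0.34657 * n) ≤ Real.exp (7.5112 * n) * d := by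
    have h1 : (Dn n : ℝ) * (‖A n‖ * d) ≤ Real.exp (7.5112 * n) * d := by
      have h2 := norm_A_le n
      calc (Dn n : ℝ) * (‖A n‖ * d)
          ≤ Real.exp (2.3552 * n) * (Real.exp (5.156 * n) * d) := by gcongr
        _ = Real.exp (7.5112 * n) * d := by
          rw [← mul_assoc, ← Real.exp_add]
          congr 2
          ring
    have h3 : ‖Del q P n‖ ≤ Dn n * (2 * q * ‖Lam n‖) + Dn n * (‖A n‖ * d) := by
      rw [← mul_add]
      exact hup
    linarith
  -- lower bound for d
  have claim5 : 1 / 2 * Real.exp (-5.0585 * X - 55.7) ≤ d := by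
    have h1 : 1 / 2 * Real.exp (-(7.16463) * n) ≤ d := by
      have h2 := mul_le_mul_of_nonneg_left claim4 (Real.exp_pos (-(7.5112) * n)).le
      calc 1 / 2 * Real.exp (-(7.16463) * n)
          = Real.exp (-(7.5112) * n) * (1 / 2 * Real.exp (0.34657 * n)) := by
            rw [mul_left_comm, ← Real.exp_add]
            congr 2
            ring
        _ ≤ Real.exp (-(7.5112) * n) * (Real.exp (7.5112 * n) * d) := h2
        _ = d := by
            rw [← mul_assoc, ← Real.exp_add]
            have : -(7.5112) * (n:ℝ) + 7.5112 * n = 0 := by ring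
            rw [this, Real.exp_zero, one_mul]
    refine le_trans ?_ h1
    apply mul_le_mul_of_nonneg_left _ (by norm_num)
    apply Real.exp_le_exp.mpr
    linarith
  -- conclusion
  have hdq : |Real.pi - P / q| = d * Real.exp (-X) := by
    have h1 : d = q * |Real.pi - P / q| := by
      rw [hd, ← abs_of_pos hqr, ← abs_mul, abs_of_pos hqr]
      congr 1
      field_simp
    rw [h1, hqX, mul_comm (Real.exp X), mul_assoc, ← Real.exp_add]
    simp
  rw [hdq]
  have h9 : Real.exp (-6.059 * X) < 1 / 2 * Real.exp (-5.0585 * X - 55.7) * Real.exp (-X) := by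
    have h10 : (1 / 2 : ℝ) = Real.exp (-Real.log 2) := by
      rw [Real.exp_neg, Real.exp_log (by norm_num)]
      norm_num
    rw [h10, ← Real.exp_add, ← Real.exp_add]
    apply Real.exp_lt_exp.mpr
    have := Real.log_two_lt_d9
    linarith
  refine h9.trans_le ?_
  exact mul_le_mul_of_nonneg_right claim5 (Real.exp_pos _).le

end Pool.Agent.Helper44.Hata
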