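import Mathlib
import Pool.Agent.Helper44.Hata.Main

open Filter Topology

namespace Pool.Agent.Results.MP_57632f_nt.PeriodicBlocks

/-- the `i`-th decimal digit of `π` (after the decimal point, for `i ≥ 1`) -/
noncomputable def piDigit (i : ℕ) : ℤ := ⌊Real.pi * (10 : ℝ) ^ i⌋ % 10

lemma floor_step (i : ℕ) :
    ⌊Real.pi * (10 : ℝ) ^ (i + 1)⌋ = 10 * ⌊Real.pi * (10 : ℝ) ^ i⌋ + piDigit (i + 1) := by
  unfold piDigit
  have h1 : ⌊Real.pi * (10 : ℝ) ^ i⌋ = ⌊Real.pi * (10 : ℝ) ^ (i + 1)⌋ / 10 := by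
    have h2 := Int.floor_div_natCast (Real.pi * (10 : ℝ) ^ (i + 1)) 10
    have h3 : Real.pi * (10 : ℝ) ^ (i + 1) / ((10 : ℕ) : ℝ) = Real.pi * (10 : ℝ) ^ i := by
      push_cast
      rw [pow_succ]
      field_simp
    rw [h3] at h2
    exact h2
  rw [h1]
  omega

lemma floor_sub {m p : ℕ} (K : ℕ)
    (h : ∀ i, m < i → i ≤ m + K → piDigit i = piDigit (i + p)) :
    ⌊Real.pi * (10 : ℝ) ^ (m + p + K)⌋ - ⌊Real.pi * (10 : ℝ) ^ (m + K)⌋
      = 10 ^ K * (⌊Real.pi * (10 : ℝ) ^ (m + p)⌋ - ⌊Real.pi * (10 : ℝ) ^ m⌋) := by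
  induction K with
  | zero => simp
  | succ K ih =>
    have h1 := ih (fun i hi hi2 => h i hi (by omega))
    have h2 := floor_step (m + p + K)
    have h3 := floor_step (m + K)
    have h4 := h (m + K + 1) (by omega) (by omega)
    rw [show m + K + 1 + p = m + p + K + 1 by ring] at h4
    rw [show m + p + (K + 1) = m + p + K + 1 by ring, show m + (K + 1) = m + K + 1 by ring,
      h2, h3, h4, pow_succ]
    linear_combination 10 * h1

/-- For all large `m` and every period `p ≤ m / 5`, the block of decimal digits of `π` in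
positions `m + 1, …, ⌊6.06 (m + p)⌋` is not `p`-periodic. -/
theorem result :
    ∃ M : ℕ, ∀ m p : ℕ, M ≤ m → 1 ≤ p → 5 * p ≤ m →
      ∃ i : ℕ, m < i ∧ ((i + p : ℕ) : ℝ) ≤ 6.06 * ((m + p : ℕ) : ℝ) ∧
        piDigit i ≠ piDigit (i + p) := by
  obtain ⟨X0, hX0⟩ := Helper44.Hata.main_bound
  obtain ⟨M1, hM1⟩ := exists_nat_gt X0
  refine ⟨max M1 2000, ?_⟩
  intro m p hm hp hpm
  have hm1 : M1 ≤ m := (le_max_left _ _).trans hm
  have hm2 : 2000 ≤ m := (le_max_right _ _).trans hm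
  by_contra hcon
  push Not at hcon
  -- the number of agreeing digits
  obtain ⟨N, hN⟩ : ∃ N : ℕ, N = ⌊6.06 * ((m + p : ℕ) : ℝ)⌋₊ := ⟨_, rfl⟩
  have hNle : (N : ℝ) ≤ 6.06 * ((m + p : ℕ) : ℝ) := by
    rw [hN]
    exact Nat.floor_le (by positivity)
  have hNlt : 6.06 * ((m + p : ℕ) : ℝ) < N + 1 := by
    rw [hN]
    exact Nat.lt_floor_add_one _
  have hNge : m + p ≤ N := by
    have h1 : ((m + p : ℕ) : ℝ) < N + 1 := by
      have h0 : (0:ℝ) ≤ ((m + p : ℕ) : ℝ) := Nat.cast_nonneg _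
      linarith
    have h2 : ((m + p : ℕ) : ℝ) < ((N + 1 : ℕ) : ℝ) := by
      push_cast at h1 ⊢
      linarith
    have h3 : m + p < N + 1 := by exact_mod_cast h2
    omega
  obtain ⟨K, hK⟩ : ∃ K, N = m + p + K := ⟨N - (m + p), by omega⟩
  have hfl := floor_sub (m := m) (p := p) K (by
    intro i hi hi2
    apply hcon i hi
    refine le_trans ?_ hNle
    have : i + p ≤ N := by omega
    exact_mod_cast this)
  -- the denominator
  obtain ⟨q, hq⟩ : ∃ q : ℕ, q = 10 ^ m * (10 ^ p - 1) := ⟨_, rfl⟩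
  have h10p : 10 ≤ 10 ^ p := by
    calc 10 = 10 ^ 1 := by norm_num
      _ ≤ 10 ^ p := Nat.pow_le_pow_right (by norm_num) hp
  have hqpos : 0 < q := by
    rw [hq]
    apply Nat.mul_pos (by positivity)
    omega
  have hqR : (q : ℝ) = 10 ^ m * (10 ^ p - 1) := by
    rw [hq, Nat.cast_mul, Nat.cast_sub (by omega)]
    push_cast
    ring
  have hqR0 : (0:ℝ) < q := by exact_mod_cast hqpos
  have h10pR : (10:ℝ) ≤ 10 ^ p := by exact_mod_cast h10p
  -- hypotheses of the main bound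
  have hdvd : 2 ^ m ∣ q := by
    rw [hq]
    have : (2:ℕ) ^ m ∣ 10 ^ m := pow_dvd_pow_of_dvd (by norm_num) m
    exact this.mul_right _
  have hq16 : (q : ℝ) ≤ 16 ^ m := by
    have h1 : (q : ℝ) ^ 5 ≤ (16 ^ m) ^ 5 := by
      calc (q : ℝ) ^ 5 ≤ (10 ^ m * 10 ^ p) ^ 5 := by
            apply pow_le_pow_left₀ hqR0.le
            rw [hqR]
            apply mul_le_mul_of_nonneg_left _ (by positivity)
            linarith
        _ = 10 ^ (5 * m + 5 * p) := by
            rw [← pow_add, ← pow_mul]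
            congr 1
            ring
        _ ≤ 10 ^ (6 * m) := pow_le_pow_right₀ (by norm_num) (by omega)
        _ = (10 ^ 6) ^ m := by rw [pow_mul]
        _ ≤ (16 ^ 5) ^ m := pow_le_pow_left₀ (by norm_num) (by norm_num) m
        _ = (16 ^ m) ^ 5 := by rw [← pow_mul, ← pow_mul, mul_comm]
    exact le_of_pow_le_pow_left₀ (by norm_num) (by positivity) h1
  have hlogle : Real.log q ≤ ((m + p : ℕ) : ℝ) * Real.log 10 := by
    rw [← Real.log_pow]
    apply Real.log_le_log hqR0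
    rw [hqR, pow_add]
    apply mul_le_mul_of_nonneg_left _ (by positivity)
    linarith
  have hlogge : X0 ≤ Real.log q := by
    have h1 : (m : ℝ) ≤ Real.log q := by
      rw [Real.le_log_iff_exp_le hqR0]
      have h2 : Real.exp 1 ≤ 10 := by
        have := Real.exp_one_lt_d9
        linarith
      calc Real.exp m = Real.exp 1 ^ m := by rw [← Real.exp_nat_mul, mul_one]
        _ ≤ 10 ^ m := pow_le_pow_left₀ (Real.exp_pos 1).le h2 m
        _ = 10 ^ m * 1 := (mul_one _).symm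
        _ ≤ 10 ^ m * (10 ^ p - 1) := by
            apply mul_le_mul_of_nonneg_left _ (by positivity)
            linarith
        _ = q := hqR.symm
    have h2 : (M1 : ℝ) ≤ m := by exact_mod_cast hm1
    linarith
  obtain ⟨P, hP⟩ : ∃ P : ℤ, P = ⌊Real.pi * (10 : ℝ) ^ (m + p)⌋ - ⌊Real.pi * (10 : ℝ) ^ m⌋ :=
    ⟨_, rfl⟩
  have hmain := hX0 q m P hqpos hlogge hdvd hq16
  -- upper bound
  have hup : |10 ^ K * (q * Real.pi - P)| ≤ 1 := by
    have h1 := Int.floor_le (Real.pi * (10 : ℝ) ^ (m + p + K))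
    have h2 := Int.lt_floor_add_one (Real.pi * (10 : ℝ) ^ (m + p + K))
    have h3 := Int.floor_le (Real.pi * (10 : ℝ) ^ (m + K))
    have h4 := Int.lt_floor_add_one (Real.pi * (10 : ℝ) ^ (m + K))
    have h5 : (⌊Real.pi * (10 : ℝ) ^ (m + p + K)⌋ : ℝ) - ⌊Real.pi * (10 : ℝ) ^ (m + K)⌋
        = 10 ^ K * P := by
      rw [hP]
      exact_mod_cast hfl
    have h6 : (10:ℝ) ^ K * (q * Real.pi - P)
        = (Real.pi * (10 : ℝ) ^ (m + p + K) - Real.pi * (10 : ℝ) ^ (m + K)) - 10 ^ K * P := by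
      rw [hqR, pow_add, pow_add, pow_add]
      ring
    rw [h6, ← h5, abs_le]
    constructor <;> linarith
  have hup2 : |Real.pi - P / q| * (q * 10 ^ K) ≤ 1 := by
    refine le_trans (le_of_eq ?_) hup
    have h7 : (10:ℝ) ^ K * (q * Real.pi - P) = (Real.pi - P / q) * (q * 10 ^ K) := by
      field_simp
    rw [h7, abs_mul, abs_of_pos (a := (q:ℝ) * 10 ^ K) (by positivity)]
  -- lower bound
  have hlow : Real.exp (-6.059 * (((m + p : ℕ) : ℝ) * Real.log 10)) < |Real.pi - P / q| := by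
    refine lt_of_le_of_lt ?_ hmain
    apply Real.exp_le_exp.mpr
    linarith
  have hqK : Real.exp (((N : ℝ) - 1) * Real.log 10) ≤ q * 10 ^ K := by
    have h8 : Real.exp ((N : ℝ) * Real.log 10) = 10 ^ N := by
      rw [Real.exp_nat_mul, Real.exp_log (by norm_num)]
    have h9 : Real.exp (((N : ℝ) - 1) * Real.log 10) = 10 ^ N / 10 := by
      rw [sub_mul, one_mul, Real.exp_sub, h8, Real.exp_log (by norm_num)]
    rw [h9, hK, hqR, pow_add, pow_add, div_le_iff₀ (by norm_num)]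
    have h10 : (10:ℝ) ^ p ≤ (10 ^ p - 1) * 10 := by linarith
    calc (10:ℝ) ^ m * 10 ^ p * 10 ^ K ≤ 10 ^ m * ((10 ^ p - 1) * 10) * 10 ^ K := by gcongr
      _ = 10 ^ m * (10 ^ p - 1) * 10 ^ K * 10 := by ring
  have hfin : Real.exp (-6.059 * (((m + p : ℕ) : ℝ) * Real.log 10))
      * Real.exp (((N : ℝ) - 1) * Real.log 10) < 1 := by
    calc Real.exp (-6.059 * (((m + p : ℕ) : ℝ) * Real.log 10))
      * Real.exp (((N : ℝ) - 1) * Real.log 10)
        ≤ Real.exp (-6.059 * (((m + p : ℕ) : ℝ) * Real.log 10)) * (q * 10 ^ K) := by gcongr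
      _ < |Real.pi - P / q| * (q * 10 ^ K) := by
        apply mul_lt_mul_of_pos_right hlow (by positivity)
      _ ≤ 1 := hup2
  rw [← Real.exp_add, Real.exp_lt_one_iff] at hfin
  have hlog10 : 0 < Real.log 10 := Real.log_pos (by norm_num)
  have hneg : -6.059 * ((m + p : ℕ) : ℝ) + ((N : ℝ) - 1) < 0 := by
    have h11 : (-6.059 * ((m + p : ℕ) : ℝ) + ((N : ℝ) - 1)) * Real.log 10 < 0 := by
      linarith
    by_contra hc
    push Not at hc
    have := mul_nonneg hc hlog10.le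
    linarith
  have hmp : (2000:ℝ) ≤ ((m + p : ℕ) : ℝ) := by
    have h12 : 2000 ≤ m + p := by omega
    exact_mod_cast h12
  linarith

end Pool.Agent.Results.MP_57632f_nt.PeriodicBlocks
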